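import Pool.Agent.Helper5.RS.PG
import Pool.Agent.Helper51.EA.Defs

/-!
# Project EA (MP_b6b996_nt), block B4: one point of large complexity, with the right power of `log D`
-/

set_option autoImplicit false

namespace Pool.Agent.Helper51.EA

open Finset Pool.Agent.Helper5.RM Pool.Agent.Helper5.RS

/-- large `N` -/
private lemma eventEA4 (B1 : ℕ) : ∃ N0 : ℕ, ∀ N : ℕ, N0 ≤ N → 1 ≤ N ∧ 16 ≤ LL N ∧ (B1 : ℝ) ≤ LL N := by
  have h1 : Filter.Tendsto (fun N : ℕ => LL N) Filter.atTop Filter.atTop := by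
    unfold LL
    exact Filter.tendsto_atTop_add_const_left _ _ (Real.tendsto_log_atTop.comp tendsto_natCast_atTop_atTop)
  obtain ⟨N0, h⟩ := Filter.eventually_atTop.1
    ((Filter.eventually_ge_atTop 1).and ((h1.eventually_ge_atTop 16).and (h1.eventually_ge_atTop (B1 : ℝ))))
  exact ⟨N0, h⟩

/-- the final bound of the probability -/
private lemma probEA4 {D L p1 : ℝ} {I : ℕ} (hD : 1 ≤ D) (hL : 1 ≤ L) (hI : (I : ℝ) ≤ 2 * L)
    (h : (16 * L ^ 2) ^ 4 ≤ D) (hp : p1 ≤ D ^ (-(5 / 2) : ℝ)) :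
    p1 + 2 * (I : ℝ) ^ 2 * D ^ (-(5 / 2) : ℝ) + 1 / D ^ 4 ≤ D ^ (-(9 / 4) : ℝ) := by
  have hD0 : 0 < D := by linarith
  have h1 : 16 * L ^ 2 ≤ D ^ (1 / 4 : ℝ) := by
    calc 16 * L ^ 2 = ((16 * L ^ 2) ^ 4) ^ (1 / 4 : ℝ) := by
          rw [← Real.rpow_natCast (16 * L ^ 2) 4, ← Real.rpow_mul (by positivity)]
          norm_num
      _ ≤ D ^ (1 / 4 : ℝ) := Real.rpow_le_rpow (by positivity) h (by norm_num)
  have h2 : D ^ (-(9 / 4) : ℝ) = D ^ (1 / 4 : ℝ) * D ^ (-(5 / 2) : ℝ) := by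
    rw [← Real.rpow_add hD0]
    norm_num
  have h3 : 1 / D ^ 4 ≤ D ^ (-(5 / 2) : ℝ) := by
    rw [show (1 : ℝ) / D ^ 4 = D ^ (-4 : ℝ) by
      rw [Real.rpow_neg hD0.le, one_div, ← Real.rpow_natCast D 4]
      norm_num]
    exact Real.rpow_le_rpow_of_exponent_le hD (by norm_num)
  have h4 : 0 < D ^ (-(5 / 2) : ℝ) := Real.rpow_pos_of_pos hD0 _
  have h5 : 2 * (I : ℝ) ^ 2 ≤ 8 * L ^ 2 := by
    have : (I : ℝ) ^ 2 ≤ (2 * L) ^ 2 := pow_le_pow_left₀ (Nat.cast_nonneg I) hI 2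
    nlinarith
  have h6 : (2 + 8 * L ^ 2) ≤ 16 * L ^ 2 := by nlinarith
  rw [h2]
  calc p1 + 2 * (I : ℝ) ^ 2 * D ^ (-(5 / 2) : ℝ) + 1 / D ^ 4
      ≤ D ^ (-(5 / 2) : ℝ) + 8 * L ^ 2 * D ^ (-(5 / 2) : ℝ) + D ^ (-(5 / 2) : ℝ) := by
        have := mul_le_mul_of_nonneg_right h5 h4.le
        linarith
    _ = (2 + 8 * L ^ 2) * D ^ (-(5 / 2) : ℝ) := by ring
    _ ≤ D ^ (1 / 4 : ℝ) * D ^ (-(5 / 2) : ℝ) := by
        exact mul_le_mul_of_nonneg_right (h6.trans h1) h4.le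

/-- B4, the hypothesis is B3 (`v_all`). -/
theorem point_far3_of (hv3 : ∃ (C6 : ℝ) (B1 : ℕ), 0 < C6 ∧ ∀ (N : ℕ) (θ D : ℝ), Far N θ D → ∀ (B z k w I : ℕ) (η : ℝ),
    Par N D B z k w I η → B1 ≤ B → pr (PP N) (fun T => C6 * N < ∑ l ∈ LI N B z 1, ‖XX N θ l T‖ ^ 2) ≤ 1 / D ^ 4) : ∃ (C7 : ℝ) (C0 N0 : ℕ), 0 < C7 ∧ ∀ N : ℕ, N0 ≤ N → ∀ θ D : ℝ, Far N θ D → LL N ^ C0 ≤ D → D ≤ N →
    pr (PP N) (fun T => C7 * Real.sqrt (N * Real.log D) < ‖SN N T θ‖) ≤ D ^ (-(9 / 4) : ℝ) := by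
  obtain ⟨C6, B1, hC6, hv⟩ := hv3
  obtain ⟨C0, N1, h1⟩ := par_small
  obtain ⟨N2, h2⟩ := par_large
  obtain ⟨N3, h3⟩ := eventEA4 B1
  refine ⟨5 + Real.sqrt (5 * C6), C0 + 12, max (max N1 N2) N3, by positivity, fun N hN θ D hF hD hDN => ?_⟩
  have hN1 : N1 ≤ N := (le_max_left _ _).trans ((le_max_left _ _).trans hN)
  have hN2 : N2 ≤ N := (le_max_right _ _).trans ((le_max_left _ _).trans hN)
  obtain ⟨hN0, hL16, hLB⟩ := h3 N ((le_max_right _ _).trans hN)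
  have hL1 : 1 ≤ LL N := by linarith
  have hD1' : LL N ^ C0 ≤ D := (pow_le_pow_right₀ hL1 (by omega)).trans hD
  have hD1 : 1 ≤ D := (one_le_pow₀ hL1).trans hD
  obtain ⟨B, z, k, w, I, η, hP⟩ : ∃ (B z k w I : ℕ) (η : ℝ), Par N D B z k w I η := by
    rcases le_total (Real.log D) (Real.log (LL N) ^ 8) with h | h
    · exact h1 N hN1 D hD1' h hDN
    · exact h2 N hN2 D h hD1 hDN
  have hB1 : B1 ≤ B := by
    have h4 := hP.hBL
    have : (B1 : ℝ) ≤ B := by linarith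
    exact_mod_cast this
  have hD4 := hP.hD4
  have hlogD : 1 ≤ Real.log D := by
    have h5 := Real.log_le_log (by norm_num : (0 : ℝ) < 4) hD4
    have h6 : Real.log 4 = 2 * Real.log 2 := by
      rw [show (4 : ℝ) = 2 ^ 2 by norm_num, Real.log_pow]
      norm_num
    have h7 := Real.log_two_gt_d9
    linarith
  have hpg := point_gen N θ D hF B z k w I η hP (C6 * N) (1 / D ^ 4) (by positivity) (hv N θ D hF B z k w I η hP hB1)
  have hthr : 5 * Real.sqrt N + Real.sqrt (5 * Real.log D * (C6 * N)) ≤ (5 + Real.sqrt (5 * C6)) * Real.sqrt (N * Real.log D) := by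
    have h5 : Real.sqrt N ≤ Real.sqrt (N * Real.log D) := by
      apply Real.sqrt_le_sqrt
      have : (0 : ℝ) ≤ N := Nat.cast_nonneg N
      nlinarith
    have h6 : Real.sqrt (5 * Real.log D * (C6 * N)) = Real.sqrt (5 * C6) * Real.sqrt (N * Real.log D) := by
      rw [← Real.sqrt_mul (by positivity)]
      congr 1
      ring
    rw [h6]
    linarith
  refine (pr_mono fun T _ hT => lt_of_le_of_lt hthr hT).trans (hpg.trans ?_)
  refine probEA4 hD1 hL1 hP.hIL ?_ ?_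
  · calc (16 * LL N ^ 2) ^ 4 = 16 ^ 4 * LL N ^ 8 := by ring
      _ ≤ LL N ^ 4 * LL N ^ 8 := by
          refine mul_le_mul_of_nonneg_right ?_ (by positivity)
          exact pow_le_pow_left₀ (by norm_num) hL16 4
      _ = LL N ^ 12 := by ring
      _ ≤ LL N ^ (C0 + 12) := pow_le_pow_right₀ hL1 (by omega)
      _ ≤ D := hD
  · rw [show (1 : ℝ) / D ^ 4 = D ^ (-4 : ℝ) by
      rw [Real.rpow_neg (by linarith), one_div, ← Real.rpow_natCast D 4]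
      norm_num]
    exact Real.rpow_le_rpow_of_exponent_le (by linarith) (by norm_num)

end Pool.Agent.Helper51.EA
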