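import Pool.Agent.Helper11.RL.Defs

/-!
# Project EA (MP_b6b996_nt), block B6: the number of squarefree integers up to `y`
-/

set_option autoImplicit false

namespace Pool.Agent.Helper1.EA

open Finset ArithmeticFunction

open scoped ArithmeticFunction.Moebius ArithmeticFunction.zeta

/-- `d²` divides `a b²`, `a` squarefree, only if `d` divides `b`. -/
lemma sq_dvd_iff {a b d : ℕ} (ha : Squarefree a) (hb : b ≠ 0) : d ^ 2 ∣ a * b ^ 2 ↔ d ∣ b := by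
  have ha0 : a ≠ 0 := ha.ne_zero
  constructor
  · intro h
    have hd : d ≠ 0 := by
      rintro rfl
      rw [zero_pow two_ne_zero, zero_dvd_iff] at h
      exact mul_ne_zero ha0 (pow_ne_zero 2 hb) h
    rw [← Nat.factorization_le_iff_dvd hd hb]
    intro p
    have h1 := (Nat.factorization_le_iff_dvd (pow_ne_zero 2 hd) (mul_ne_zero ha0 (pow_ne_zero 2 hb))).2 h p
    rw [Nat.factorization_mul ha0 (pow_ne_zero 2 hb), Nat.factorization_pow, Nat.factorization_pow] at h1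
    simp only [Finsupp.add_apply, Finsupp.smul_apply, smul_eq_mul] at h1
    have h2 := ha.natFactorization_le_one p
    omega
  · intro h
    exact Dvd.dvd.mul_left (pow_dvd_pow_of_dvd h 2) a

lemma sum_mu {y n : ℕ} (hn : n ∈ Icc 1 y) :
    ∑ d ∈ (Icc 1 (Nat.sqrt y)).filter (fun d => d ^ 2 ∣ n), (μ d : ℤ) = if Squarefree n then 1 else 0 := by
  rw [mem_Icc] at hn
  obtain ⟨a, b, hab, hsq⟩ := Nat.sq_mul_squarefree n
  have hb : b ≠ 0 := by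
    rintro rfl
    rw [zero_pow two_ne_zero, zero_mul] at hab
    omega
  have ha0 : a ≠ 0 := hsq.ne_zero
  have hset : (Icc 1 (Nat.sqrt y)).filter (fun d => d ^ 2 ∣ n) = b.divisors := by
    ext d
    rw [mem_filter, mem_Icc, Nat.mem_divisors, ← hab, mul_comm, sq_dvd_iff hsq hb]
    constructor
    · rintro ⟨-, h⟩; exact ⟨h, hb⟩
    · rintro ⟨h, -⟩
      refine ⟨⟨Nat.pos_of_dvd_of_pos h (Nat.pos_of_ne_zero hb), ?_⟩, h⟩
      rw [Nat.le_sqrt']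
      have h1 : d ≤ b := Nat.le_of_dvd (Nat.pos_of_ne_zero hb) h
      calc d ^ 2 ≤ b ^ 2 := Nat.pow_le_pow_left h1 2
        _ ≤ b ^ 2 * a := Nat.le_mul_of_pos_right _ (Nat.pos_of_ne_zero ha0)
        _ = n := hab
        _ ≤ y := hn.2
  rw [hset]
  have h1 : ∑ d ∈ b.divisors, (μ d : ℤ) = if b = 1 then 1 else 0 := by
    have := congrArg (fun f : ArithmeticFunction ℤ => f b) moebius_mul_coe_zeta
    rw [coe_mul_zeta_apply, one_apply] at this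
    exact this
  rw [h1]
  have h2 : b = 1 ↔ Squarefree n := by
    constructor
    · rintro rfl
      rw [← hab, one_pow, one_mul]
      exact hsq
    · intro h
      rw [← hab] at h
      have h3 := h b ⟨a, by ring⟩
      exact Nat.isUnit_iff.1 h3
  simp only [h2]

lemma card_mult {y k : ℕ} (hk : 0 < k) : ((Icc 1 y).filter (fun n => k ∣ n)).card = y / k := by
  have h1 : (Icc 1 y).filter (fun n => k ∣ n) = (Icc 1 (y / k)).image (fun m => k * m) := by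
    ext n
    simp only [mem_filter, mem_Icc, mem_image]
    constructor
    · rintro ⟨⟨h1, h2⟩, m, rfl⟩
      refine ⟨m, ⟨Nat.pos_of_ne_zero (by rintro rfl; omega), ?_⟩, rfl⟩
      rw [Nat.le_div_iff_mul_le hk, mul_comm]
      exact h2
    · rintro ⟨m, ⟨h1, h2⟩, rfl⟩
      rw [Nat.le_div_iff_mul_le hk, mul_comm] at h2
      exact ⟨⟨Nat.mul_pos hk h1, h2⟩, Dvd.intro m rfl⟩
  rw [h1, card_image_of_injective _ (fun a b h => Nat.eq_of_mul_eq_mul_left hk h), Nat.card_Icc, Nat.add_sub_cancel]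

/-- The number of squarefree `n ≤ y`. -/
lemma card_sqf (y : ℕ) : (((Icc 1 y).filter Squarefree).card : ℤ) = ∑ d ∈ Icc 1 (Nat.sqrt y), μ d * ((y / d ^ 2 : ℕ) : ℤ) := by
  have h1 : (((Icc 1 y).filter Squarefree).card : ℤ) = ∑ n ∈ Icc 1 y, ∑ d ∈ (Icc 1 (Nat.sqrt y)).filter (fun d => d ^ 2 ∣ n), (μ d : ℤ) := by
    rw [card_filter]
    push_cast
    exact sum_congr rfl fun n hn => (sum_mu hn).symm
  rw [h1]
  simp only [sum_filter]
  rw [sum_comm]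
  refine sum_congr rfl fun d hd => ?_
  rw [mem_Icc] at hd
  rw [← sum_filter, sum_const, card_mult (pow_pos hd.1 2), nsmul_eq_mul]
  ring

/-- `∑ μ(d)/d² = 6/π²`. -/
lemma hasSum_mu : HasSum (fun d : ℕ => (μ d : ℝ) / (d : ℝ) ^ 2) (6 / Real.pi ^ 2) := by
  have hs : 1 < (2 : ℂ).re := by norm_num
  have h1 := LSeries_zeta_mul_Lseries_moebius hs
  have h2 : LSeries (fun n => ((μ n : ℤ) : ℂ)) 2 = 6 / (Real.pi : ℂ) ^ 2 := by
    have h3 : LSeries (fun n => ((ζ n : ℕ) : ℂ)) 2 = riemannZeta 2 := LSeries_zeta_eq_riemannZeta hs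
    rw [h3, riemannZeta_two] at h1
    have hp : (Real.pi : ℂ) ≠ 0 := by exact_mod_cast Real.pi_ne_zero
    field_simp at h1 ⊢
    exact h1
  have h4 : HasSum (fun n : ℕ => LSeries.term (fun n => ((μ n : ℤ) : ℂ)) 2 n) (6 / (Real.pi : ℂ) ^ 2) := by
    rw [← h2]
    exact (LSeriesSummable_moebius_iff.2 hs).hasSum
  have h5 : (fun n : ℕ => LSeries.term (fun n => ((μ n : ℤ) : ℂ)) 2 n) = fun n : ℕ => (((μ n : ℝ) / (n : ℝ) ^ 2 : ℝ) : ℂ) := by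
    funext n
    rcases eq_or_ne n 0 with rfl | hn
    · simp
    · rw [LSeries.term_of_ne_zero hn]
      push_cast
      norm_num
  rw [h5] at h4
  have h6 : (6 / (Real.pi : ℂ) ^ 2) = ((6 / Real.pi ^ 2 : ℝ) : ℂ) := by push_cast; rfl
  rw [h6] at h4
  exact (Complex.hasSum_ofReal).1 h4

lemma abs_mu_le (d : ℕ) : |(μ d : ℝ)| ≤ 1 := by
  have := abs_moebius_le_one (n := d)
  exact_mod_cast this

/-- tail of the series -/
lemma tail (s : ℕ) (hs : 1 ≤ s) : |6 / Real.pi ^ 2 - ∑ d ∈ range (s + 1), (μ d : ℝ) / (d : ℝ) ^ 2| ≤ (s : ℝ)⁻¹ := by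
  have h1 := (hasSum_mu.tendsto_sum_nat).sub_const (∑ d ∈ range (s + 1), (μ d : ℝ) / (d : ℝ) ^ 2)
  refine le_of_tendsto h1.abs ?_
  filter_upwards [Filter.eventually_ge_atTop (s + 1)] with n hn
  have h2 : ∑ d ∈ range n, (μ d : ℝ) / (d : ℝ) ^ 2 - ∑ d ∈ range (s + 1), (μ d : ℝ) / (d : ℝ) ^ 2 =
      ∑ d ∈ Ico (s + 1) n, (μ d : ℝ) / (d : ℝ) ^ 2 := by
    rw [sum_Ico_eq_sub _ hn]
  rw [h2]
  have h3 : Ico (s + 1) n ⊆ Ioc s n := by
    intro d hd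
    rw [mem_Ico] at hd
    rw [mem_Ioc]
    omega
  calc |∑ d ∈ Ico (s + 1) n, (μ d : ℝ) / (d : ℝ) ^ 2| ≤ ∑ d ∈ Ico (s + 1) n, |(μ d : ℝ) / (d : ℝ) ^ 2| := abs_sum_le_sum_abs _ _
    _ ≤ ∑ d ∈ Ico (s + 1) n, ((d : ℝ) ^ 2)⁻¹ := by
        refine sum_le_sum fun d _ => ?_
        rw [abs_div, abs_of_nonneg (by positivity : (0 : ℝ) ≤ (d : ℝ) ^ 2), div_eq_mul_inv]
        exact mul_le_of_le_one_left (by positivity) (abs_mu_le d)
    _ ≤ ∑ d ∈ Ioc s n, ((d : ℝ) ^ 2)⁻¹ := sum_le_sum_of_subset_of_nonneg h3 fun _ _ _ => by positivity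
    _ ≤ (s : ℝ)⁻¹ - (n : ℝ)⁻¹ := sum_Ioc_inv_sq_le_sub (by omega) (by omega)
    _ ≤ (s : ℝ)⁻¹ := sub_le_self _ (by positivity)

lemma sum_eq (y : ℕ) : ∑ d ∈ Icc 1 (Nat.sqrt y), (μ d : ℝ) / (d : ℝ) ^ 2 = ∑ d ∈ range (Nat.sqrt y + 1), (μ d : ℝ) / (d : ℝ) ^ 2 := by
  rw [range_eq_Ico, sum_eq_sum_Ico_succ_bot (by omega)]
  have : Icc 1 (Nat.sqrt y) = Ico (0 + 1) (Nat.sqrt y + 1) := by
    ext d
    rw [mem_Icc, mem_Ico]
    omega
  rw [this]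
  simp

theorem sqf_real (y : ℕ) : |((((Icc 1 y).filter Squarefree).card : ℕ) : ℝ) - 6 / Real.pi ^ 2 * y| ≤ 5 * Real.sqrt y := by
  rcases Nat.eq_zero_or_pos y with rfl | hy
  · simp
  set s := Nat.sqrt y with hs
  have hs1 : 1 ≤ s := Nat.sqrt_pos.2 hy
  have hs0 : (0 : ℝ) < s := by exact_mod_cast hs1
  have hle : (s : ℝ) ≤ Real.sqrt y := by
    rw [hs]
    exact Real.nat_sqrt_le_real_sqrt
  have hlt : (y : ℝ) ≤ ((s : ℝ) + 1) ^ 2 := by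
    have := (Nat.lt_succ_sqrt' y).le
    rw [Nat.succ_eq_add_one, ← hs] at this
    exact_mod_cast this
  have h1 : ((((Icc 1 y).filter Squarefree).card : ℕ) : ℝ) = ∑ d ∈ Icc 1 s, (μ d : ℝ) * ((y / d ^ 2 : ℕ) : ℝ) := by
    have h0 := congrArg (fun z : ℤ => (z : ℝ)) (card_sqf y)
    simp only [Int.cast_sum, Int.cast_mul, Int.cast_natCast] at h0
    rw [← hs] at h0
    exact h0
  have h2 : |∑ d ∈ Icc 1 s, (μ d : ℝ) * ((y / d ^ 2 : ℕ) : ℝ) - y * ∑ d ∈ Icc 1 s, (μ d : ℝ) / (d : ℝ) ^ 2| ≤ s := by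
    rw [mul_sum, ← sum_sub_distrib]
    calc |∑ d ∈ Icc 1 s, ((μ d : ℝ) * ((y / d ^ 2 : ℕ) : ℝ) - y * ((μ d : ℝ) / (d : ℝ) ^ 2))|
        ≤ ∑ d ∈ Icc 1 s, |(μ d : ℝ) * ((y / d ^ 2 : ℕ) : ℝ) - y * ((μ d : ℝ) / (d : ℝ) ^ 2)| := abs_sum_le_sum_abs _ _
      _ ≤ ∑ d ∈ Icc 1 s, (1 : ℝ) := by
          refine sum_le_sum fun d hd => ?_
          rw [mem_Icc] at hd
          have h3 : (μ d : ℝ) * ((y / d ^ 2 : ℕ) : ℝ) - y * ((μ d : ℝ) / (d : ℝ) ^ 2) =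
              (μ d : ℝ) * (((y / d ^ 2 : ℕ) : ℝ) - (y : ℝ) / ((d ^ 2 : ℕ) : ℝ)) := by push_cast; ring
          rw [h3, abs_mul]
          have h4 : |((y / d ^ 2 : ℕ) : ℝ) - (y : ℝ) / ((d ^ 2 : ℕ) : ℝ)| ≤ 1 := by
            rw [abs_le]
            have h5 : ((y / d ^ 2 : ℕ) : ℝ) ≤ (y : ℝ) / ((d ^ 2 : ℕ) : ℝ) := Nat.cast_div_le
            have h6 : (y : ℝ) / ((d ^ 2 : ℕ) : ℝ) < ((y / d ^ 2 : ℕ) : ℝ) + 1 := by
              have hd2 : 0 < d ^ 2 := pow_pos hd.1 2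
              rw [div_lt_iff₀ (by exact_mod_cast hd2)]
              have := Nat.lt_div_mul_add (a := y) hd2
              have h7 : y < (y / d ^ 2 + 1) * d ^ 2 := by
                rw [Nat.add_mul, one_mul]
                exact this
              exact_mod_cast h7
            constructor <;> linarith
          calc |(μ d : ℝ)| * |((y / d ^ 2 : ℕ) : ℝ) - (y : ℝ) / ((d ^ 2 : ℕ) : ℝ)| ≤ 1 * 1 :=
                mul_le_mul (abs_mu_le d) h4 (abs_nonneg _) zero_le_one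
            _ = 1 := one_mul 1
      _ = s := by rw [sum_const, Nat.card_Icc]; simp
  have h3 := tail s hs1
  rw [← sum_eq y, ← hs] at h3
  have h4 : |(y : ℝ) * ∑ d ∈ Icc 1 s, (μ d : ℝ) / (d : ℝ) ^ 2 - 6 / Real.pi ^ 2 * (y : ℝ)| ≤ 4 * (s : ℝ) := by
    have h5 : (y : ℝ) * ∑ d ∈ Icc 1 s, (μ d : ℝ) / (d : ℝ) ^ 2 - 6 / Real.pi ^ 2 * (y : ℝ) =
        -((y : ℝ) * (6 / Real.pi ^ 2 - ∑ d ∈ Icc 1 s, (μ d : ℝ) / (d : ℝ) ^ 2)) := by ring
    have hy0 : (0 : ℝ) ≤ (y : ℝ) := Nat.cast_nonneg y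
    rw [h5, abs_neg, abs_mul, abs_of_nonneg hy0]
    calc (y : ℝ) * |6 / Real.pi ^ 2 - ∑ d ∈ Icc 1 s, (μ d : ℝ) / (d : ℝ) ^ 2| ≤ ((s : ℝ) + 1) ^ 2 * (s : ℝ)⁻¹ :=
          mul_le_mul hlt h3 (abs_nonneg _) (by positivity)
      _ ≤ 4 * (s : ℝ) := by
          rw [← div_eq_mul_inv, div_le_iff₀ hs0]
          have : (1 : ℝ) ≤ s := by exact_mod_cast hs1
          nlinarith
  rw [h1]
  have h5 := abs_add_le (∑ d ∈ Icc 1 s, (μ d : ℝ) * ((y / d ^ 2 : ℕ) : ℝ) - y * ∑ d ∈ Icc 1 s, (μ d : ℝ) / (d : ℝ) ^ 2)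
    ((y : ℝ) * ∑ d ∈ Icc 1 s, (μ d : ℝ) / (d : ℝ) ^ 2 - 6 / Real.pi ^ 2 * y)
  rw [sub_add_sub_cancel] at h5
  linarith

end Pool.Agent.Helper1.EA

namespace Pool.Agent.Helper51.EA

/-- B6. The number of squarefree `n ≤ y` is `6 y / π² + O(√y)`. -/
theorem sqf_count : ∃ C : ℝ, 0 < C ∧ ∀ y : ℕ, |(Pool.Agent.Helper11.RL.Qf y : ℝ) - 6 / Real.pi ^ 2 * y| ≤ C * Real.sqrt y :=
  ⟨5, by norm_num, fun y => Pool.Agent.Helper1.EA.sqf_real y⟩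

end Pool.Agent.Helper51.EA
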