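import Pool.Agent.Helper5.RS.Chain
import Pool.Agent.Helper51.EA.Defs

/-!
# Project EA (MP_b6b996_nt), block B9: all `N` in a dyadic block at one point of middle complexity
-/

set_option autoImplicit false

namespace Pool.Agent.Helper51.EA

open Finset Pool.Agent.Helper5.RM Pool.Agent.Helper5.RS

private lemma LL_monoEA9 {m n : ℕ} (hm : 1 ≤ m) (h : m ≤ n) : LL m ≤ LL n := by
  unfold LL
  have h1 : (0 : ℝ) < m := by exact_mod_cast hm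
  have h2 : (m : ℝ) ≤ n := by exact_mod_cast h
  have := Real.log_le_log h1 h2
  linarith

private lemma LL_oneEA9 {m : ℕ} (hm : 1 ≤ m) : 1 ≤ LL m := by
  unfold LL
  have : 0 ≤ Real.log m := Real.log_nonneg (by exact_mod_cast hm)
  linarith

private lemma LL_powEA9 {a : ℕ} {Λ : ℝ} (hΛ : 1 ≤ Λ) (ha : (a : ℝ) + 1 ≤ 2 * Λ) : LL (2 ^ (a + 1)) ≤ 3 * Λ := by
  unfold LL
  push_cast
  rw [Real.log_pow]
  have h1 := Real.log_two_lt_d9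
  have h2 := Real.log_two_gt_d9
  push_cast
  nlinarith

private lemma find_uEA9 {D : ℝ} {a : ℕ} (hD1 : 1 ≤ D) (hDa : D ≤ 2 ^ a) :
    ∃ u : ℕ, u ≤ a ∧ D ^ (1 / 8 : ℝ) ≤ 2 ^ u ∧ (2 : ℝ) ^ u ≤ 2 * D ^ (1 / 8 : ℝ) := by
  have h1 : 1 ≤ D ^ (1 / 8 : ℝ) := Real.one_le_rpow hD1 (by norm_num)
  have h2 : D ^ (1 / 8 : ℝ) ≤ D := by
    calc D ^ (1 / 8 : ℝ) ≤ D ^ (1 : ℝ) := Real.rpow_le_rpow_of_exponent_le hD1 (by norm_num)
      _ = D := Real.rpow_one D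
  have hex : ∃ u : ℕ, D ^ (1 / 8 : ℝ) ≤ 2 ^ u := ⟨a, h2.trans hDa⟩
  classical
  refine ⟨Nat.find hex, Nat.find_min' hex (h2.trans hDa), Nat.find_spec hex, ?_⟩
  rcases Nat.eq_zero_or_pos (Nat.find hex) with h | h
  · rw [h, pow_zero]
    linarith
  · have h3 := Nat.find_min hex (m := Nat.find hex - 1) (by omega)
    push Not at h3
    have h4 : (2 : ℝ) ^ Nat.find hex = 2 * 2 ^ (Nat.find hex - 1) := by
      conv_lhs => rw [show Nat.find hex = (Nat.find hex - 1) + 1 by omega]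
      rw [pow_succ]; ring
    rw [h4]
    linarith

/-- the threshold for the size of `2 ^ i` -/
private lemma largeEA9 (δ : ℝ) (C0 N1 : ℕ) : ∃ i0 : ℕ, ∀ i : ℕ, i0 ≤ i →
    (2 ≤ i ∧ N1 ≤ 2 ^ (2 ^ i) ∧ (3 : ℝ) ^ C0 ≤ 2 ^ i ∧ 12 / δ ≤ Real.sqrt ((2 : ℝ) ^ i)) := by
  have h1 : Filter.Tendsto (fun i : ℕ => Real.sqrt ((2 : ℝ) ^ i)) Filter.atTop Filter.atTop :=
    Real.tendsto_sqrt_atTop.comp (tendsto_pow_atTop_atTop_of_one_lt (by norm_num))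
  obtain ⟨i1, hi1⟩ := Filter.eventually_atTop.1 (h1.eventually_ge_atTop (12 / δ))
  refine ⟨max (max i1 2) (max N1 (2 * C0)), fun i hi => ?_⟩
  have g1 : i1 ≤ i := (le_max_left _ _).trans ((le_max_left _ _).trans hi)
  have g2 : 2 ≤ i := (le_max_right _ _).trans ((le_max_left _ _).trans hi)
  have g3 : N1 ≤ i := (le_max_left _ _).trans ((le_max_right _ _).trans hi)
  have g4 : 2 * C0 ≤ i := (le_max_right _ _).trans ((le_max_right _ _).trans hi)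
  refine ⟨g2, ?_, ?_, hi1 i g1⟩
  · have h2 : i < 2 ^ i := Nat.lt_two_pow_self
    have h3 : 2 ^ i < 2 ^ (2 ^ i) := Nat.lt_two_pow_self
    omega
  · calc (3 : ℝ) ^ C0 ≤ 4 ^ C0 := pow_le_pow_left₀ (by norm_num) (by norm_num) _
      _ = 2 ^ (2 * C0) := by rw [pow_mul]; norm_num
      _ ≤ 2 ^ i := pow_le_pow_right₀ (by norm_num) g4

/-- B9, the hypothesis is B4 (`point_far3`). -/
theorem far_a_of (hpf : ∃ (C7 : ℝ) (C0 N0 : ℕ), 0 < C7 ∧ ∀ N : ℕ, N0 ≤ N → ∀ θ D : ℝ, Far N θ D → LL N ^ C0 ≤ D → D ≤ N →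
      pr (PP N) (fun T => C7 * Real.sqrt (N * Real.log D) < ‖SN N T θ‖) ≤ D ^ (-(9 / 4) : ℝ))
    (δ : ℝ) (hδ : 0 < δ) : ∃ (κ : ℝ) (C1 i0 : ℕ), 0 < κ ∧ ∀ i : ℕ, i0 ≤ i → ∀ a : ℕ, 2 ^ i ≤ a →
    a < 2 * 2 ^ i → ∀ x D : ℝ, Far (2 ^ a) x D → ((2 : ℝ) ^ i) ^ C1 ≤ D → D ≤ ((2 : ℝ) ^ a) ^ κ →
    pr (PP (2 ^ (2 * 2 ^ i))) (fun T => ∃ N : ℕ, 2 ^ a ≤ N ∧ N ≤ 2 ^ (a + 1) ∧
      δ * Real.sqrt (2 ^ a * 2 ^ i) < ‖SN N T x‖) ≤ 4 * D ^ (-(17 / 8) : ℝ) := by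
  obtain ⟨C7, C0, N1, hC7, hN1⟩ := hpf
  obtain ⟨W', hW'⟩ : ∃ W' : ℕ, (2 * 20 - 1) ^ 20 ≤ W' := ⟨_, le_rfl⟩
  obtain ⟨i0, hi0⟩ := largeEA9 δ C0 N1
  have hκ0 : 0 < min 1 (δ ^ 2 / (16 * C7 ^ 2)) := by positivity
  obtain ⟨κ, hκdef⟩ : ∃ κ : ℝ, κ = min 1 (δ ^ 2 / (16 * C7 ^ 2)) := ⟨_, rfl⟩
  rw [← hκdef] at hκ0
  have hκ1 : κ ≤ 1 := hκdef ▸ min_le_left _ _
  have hκ2 : 16 * C7 ^ 2 * κ ≤ δ ^ 2 := by
    have : κ ≤ δ ^ 2 / (16 * C7 ^ 2) := hκdef ▸ min_le_right _ _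
    rw [le_div_iff₀ (by positivity)] at this
    linarith
  refine ⟨κ, C0 + 8 * W' + 40, i0, hκ0, fun i hi a hai ha2 x D hFar hCD hDκ => ?_⟩
  have h2a : (1 : ℝ) ≤ 2 ^ a := one_le_pow₀ (by norm_num)
  have hDa : D ≤ 2 ^ a := by
    calc D ≤ ((2 : ℝ) ^ a) ^ κ := hDκ
      _ ≤ ((2 : ℝ) ^ a) ^ (1 : ℝ) := Real.rpow_le_rpow_of_exponent_le h2a hκ1
      _ = 2 ^ a := Real.rpow_one _
  obtain ⟨hi2, hN1i, h3C, hK⟩ := hi0 i hi
  set Λ : ℝ := (2 : ℝ) ^ i with hΛdef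
  have hΛ4 : 4 ≤ Λ := by
    calc (4 : ℝ) = 2 ^ 2 := by norm_num
      _ ≤ 2 ^ i := pow_le_pow_right₀ (by norm_num) hi2
  have hΛ1 : 1 ≤ Λ := by linarith
  have hΛ0 : 0 < Λ := by linarith
  have haR : (a : ℝ) + 1 ≤ 2 * Λ := by
    have : a + 1 ≤ 2 * 2 ^ i := ha2
    rw [hΛdef]
    exact_mod_cast this
  have hL3 : LL (2 ^ (a + 1)) ≤ 3 * Λ := LL_powEA9 hΛ1 haR
  have hL1 : 1 ≤ LL (2 ^ (a + 1)) := LL_oneEA9 Nat.one_le_two_pow
  have hD1 : 1 ≤ D := (one_le_pow₀ hΛ1).trans hCD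
  have hD0 : 0 < D := by linarith
  have hlogD : Real.log D ≤ κ * (2 * Λ) := by
    have h1 := Real.log_le_log hD0 hDκ
    rw [Real.log_rpow (by positivity), Real.log_pow] at h1
    refine h1.trans (mul_le_mul_of_nonneg_left ?_ hκ0.le)
    have h2 := Real.log_two_lt_d9
    have h3 : (0 : ℝ) ≤ a := Nat.cast_nonneg a
    nlinarith
  obtain ⟨u, hua, hu1, hu2⟩ := find_uEA9 hD1 hDa
  set s0 : ℕ := a - u with hs0
  have hsu : s0 + u = a := by omega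
  have hM : 2 ^ (a + 1) ≤ 2 ^ (2 * 2 ^ i) := Nat.pow_le_pow_right (by norm_num) ha2
  have hchain := chain 20 W' a s0 (2 ^ (2 * 2 ^ i)) x (by norm_num) hW' (by omega) hM
  have hpa : (2 : ℝ) ^ a = 2 ^ s0 * 2 ^ u := by rw [← pow_add, hsu]
  -- the first probability
  have hD8 : (D ^ (1 / 8 : ℝ)) ^ 19 = D ^ (19 / 8 : ℝ) := by
    rw [← Real.rpow_natCast, ← Real.rpow_mul hD0.le]
    norm_num
  have hp1 : 2 * LL (2 ^ (a + 1)) ^ W' * ((2 : ℝ) ^ s0 / 2 ^ a) ^ (20 - 1) ≤ D ^ (-(17 / 8) : ℝ) := by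
    have e1 : ((2 : ℝ) ^ s0 / 2 ^ a) = ((2 : ℝ) ^ u)⁻¹ := by
      rw [hpa]
      field_simp
    have e2 : (((2 : ℝ) ^ u)⁻¹) ^ 19 ≤ (D ^ (19 / 8 : ℝ))⁻¹ := by
      rw [inv_pow, ← hD8]
      apply inv_anti₀
      · positivity
      · exact pow_le_pow_left₀ (by positivity) hu1 19
    have e3 : 2 * LL (2 ^ (a + 1)) ^ W' ≤ D ^ (1 / 4 : ℝ) := by
      have e4 : (Λ ^ (C0 + 8 * W' + 40)) ^ (1 / 4 : ℝ) ≤ D ^ (1 / 4 : ℝ) :=
        Real.rpow_le_rpow (by positivity) hCD (by norm_num)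
      have e5 : Λ ^ (2 * W' + 10) ≤ (Λ ^ (C0 + 8 * W' + 40)) ^ (1 / 4 : ℝ) := by
        rw [← Real.rpow_natCast, ← Real.rpow_natCast, ← Real.rpow_mul hΛ0.le]
        apply Real.rpow_le_rpow_of_exponent_le hΛ1
        push_cast
        have : (0 : ℝ) ≤ C0 := Nat.cast_nonneg _
        linarith
      have e6 : 2 * LL (2 ^ (a + 1)) ^ W' ≤ Λ ^ (2 * W' + 10) := by
        have e7 : LL (2 ^ (a + 1)) ^ W' ≤ (Λ * Λ) ^ W' := by
          apply pow_le_pow_left₀ (by linarith)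
          nlinarith
        have e8 : (2 : ℝ) ≤ Λ ^ 10 := by
          have := pow_le_pow_left₀ (by norm_num) hΛ4 10
          norm_num at this
          linarith
        have e9 : Λ ^ (2 * W' + 10) = Λ ^ 10 * (Λ * Λ) ^ W' := by
          rw [pow_add, pow_mul, sq]; ring
        rw [e9]
        have e10 : 0 ≤ LL (2 ^ (a + 1)) ^ W' := pow_nonneg (by linarith) _
        exact mul_le_mul e8 e7 e10 (by positivity)
      exact e6.trans (e5.trans e4)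
    have e11 : (20 - 1 : ℕ) = 19 := rfl
    rw [e1, e11]
    calc 2 * LL (2 ^ (a + 1)) ^ W' * (((2 : ℝ) ^ u)⁻¹) ^ 19
        ≤ D ^ (1 / 4 : ℝ) * (D ^ (19 / 8 : ℝ))⁻¹ := by
          apply mul_le_mul e3 e2 (by positivity) (by positivity)
      _ = D ^ (-(17 / 8) : ℝ) := by
          rw [← Real.rpow_neg hD0.le, ← Real.rpow_add hD0]
          norm_num
  -- the second probability
  have hp2 : ∀ w ∈ Finset.Icc (2 ^ u) (2 ^ (u + 1)),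
      pr (PP (2 ^ (2 * 2 ^ i))) (fun T => C7 * Real.sqrt (((2 ^ s0 * w : ℕ) : ℝ) * Real.log D) <
        ‖SN (2 ^ s0 * w) T x‖) ≤ D ^ (-(9 / 4) : ℝ) := by
    intro w hw
    rw [Finset.mem_Icc] at hw
    have g1 : 2 ^ a ≤ 2 ^ s0 * w := by
      rw [← hsu, pow_add]
      exact Nat.mul_le_mul_left _ hw.1
    have g2 : 2 ^ s0 * w ≤ 2 ^ (a + 1) := by
      have : a + 1 = s0 + (u + 1) := by omega
      rw [this, pow_add]
      exact Nat.mul_le_mul_left _ hw.2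
    rw [pr_SN (g2.trans hM)]
    have g3 : (2 : ℝ) ^ a ≤ ((2 ^ s0 * w : ℕ) : ℝ) := by exact_mod_cast g1
    apply hN1
    · calc N1 ≤ 2 ^ (2 ^ i) := hN1i
        _ ≤ 2 ^ a := Nat.pow_le_pow_right (by norm_num) hai
        _ ≤ _ := g1
    · intro m hm
      refine (hFar m hm).trans ?_
      have g4 := nd_nonneg (m * x)
      have g5 : (((2 ^ a : ℕ) : ℝ)) ≤ ((2 ^ s0 * w : ℕ) : ℝ) := by exact_mod_cast g1
      have := mul_le_mul_of_nonneg_right g5 g4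
      linarith
    · have g4 : LL (2 ^ s0 * w) ≤ 3 * Λ := (LL_monoEA9 (le_trans Nat.one_le_two_pow g1) g2).trans hL3
      have g5 : 1 ≤ LL (2 ^ s0 * w) := LL_oneEA9 (le_trans Nat.one_le_two_pow g1)
      calc LL (2 ^ s0 * w) ^ C0 ≤ (3 * Λ) ^ C0 := pow_le_pow_left₀ (by linarith) g4 _
        _ = 3 ^ C0 * Λ ^ C0 := mul_pow _ _ _
        _ ≤ Λ ^ (8 * W' + 40) * Λ ^ C0 := by
            apply mul_le_mul_of_nonneg_right _ (by positivity)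
            refine h3C.trans ?_
            exact le_self_pow₀ hΛ1 (by omega)
        _ = Λ ^ (C0 + 8 * W' + 40) := by rw [← pow_add]; congr 1; omega
        _ ≤ D := hCD
    · exact hDa.trans g3
  -- the union
  have hmain : pr (PP (2 ^ (2 * 2 ^ i))) (fun T => ∃ N : ℕ, 2 ^ a ≤ N ∧ N ≤ 2 ^ (a + 1) ∧
      δ * Real.sqrt (2 ^ a * Λ) < ‖SN N T x‖) ≤
      pr (PP (2 ^ (2 * 2 ^ i))) (fun T => ∃ N : ℕ, 2 ^ a ≤ N ∧ N ≤ 2 ^ (a + 1) ∧
        6 * Real.sqrt (2 ^ a) < ‖SN N T x - SN (2 ^ s0 * (N / 2 ^ s0)) T x‖) +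
      pr (PP (2 ^ (2 * 2 ^ i))) (fun T => ∃ w ∈ Finset.Icc (2 ^ u) (2 ^ (u + 1)),
        C7 * Real.sqrt (((2 ^ s0 * w : ℕ) : ℝ) * Real.log D) < ‖SN (2 ^ s0 * w) T x‖) := by
    apply pr_le_add
    rintro T - ⟨N, hNa, hNb, hN⟩
    by_cases hc : 6 * Real.sqrt (2 ^ a) < ‖SN N T x - SN (2 ^ s0 * (N / 2 ^ s0)) T x‖
    · exact Or.inl ⟨N, hNa, hNb, hc⟩
    · right
      push Not at hc
      refine ⟨N / 2 ^ s0, ?_, ?_⟩
      · rw [Finset.mem_Icc]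
        constructor
        · rw [Nat.le_div_iff_mul_le (by positivity), ← pow_add]
          rw [show u + s0 = a by omega]
          exact hNa
        · have : N / 2 ^ s0 ≤ 2 ^ (a + 1) / 2 ^ s0 := Nat.div_le_div_right hNb
          rwa [Nat.pow_div (by omega) (by norm_num), show a + 1 - s0 = u + 1 by omega] at this
      · have g2 : 2 ^ s0 * (N / 2 ^ s0) ≤ 2 ^ (a + 1) := (Nat.mul_div_le _ _).trans hNb
        have g1 : 2 ^ a ≤ 2 ^ s0 * (N / 2 ^ s0) := by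
          rw [← hsu, pow_add]
          apply Nat.mul_le_mul_left
          rw [Nat.le_div_iff_mul_le (by positivity), ← pow_add, show u + s0 = a by omega]
          exact hNa
        have hΛs : 1 ≤ Real.sqrt Λ := Real.one_le_sqrt.2 hΛ1
        have g9 : 0 < Real.sqrt ((2 : ℝ) ^ a) := Real.sqrt_pos.2 (by positivity)
        have g10 : ‖SN N T x‖ ≤ ‖SN N T x - SN (2 ^ s0 * (N / 2 ^ s0)) T x‖ +
            ‖SN (2 ^ s0 * (N / 2 ^ s0)) T x‖ := by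
          have := norm_add_le (SN N T x - SN (2 ^ s0 * (N / 2 ^ s0)) T x) (SN (2 ^ s0 * (N / 2 ^ s0)) T x)
          rwa [sub_add_cancel] at this
        have hsplit : Real.sqrt (2 ^ a * Λ) = Real.sqrt (2 ^ a) * Real.sqrt Λ := Real.sqrt_mul (by positivity) _
        have g11 : 6 * Real.sqrt (2 ^ a) ≤ δ / 2 * Real.sqrt (2 ^ a * Λ) := by
          rw [hsplit]
          have h12 : 6 ≤ δ / 2 * Real.sqrt Λ := by
            rw [div_le_iff₀ hδ] at hK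
            linarith
          nlinarith
        have g12 : C7 * Real.sqrt (((2 ^ s0 * (N / 2 ^ s0) : ℕ) : ℝ) * Real.log D) ≤
            δ / 2 * Real.sqrt (2 ^ a * Λ) := by
          have h13 : ((2 ^ s0 * (N / 2 ^ s0) : ℕ) : ℝ) ≤ 2 * 2 ^ a := by
            have h14 : ((2 ^ s0 * (N / 2 ^ s0) : ℕ) : ℝ) ≤ ((2 ^ (a + 1) : ℕ) : ℝ) := by exact_mod_cast g2
            refine h14.trans (le_of_eq ?_)
            push_cast
            rw [pow_succ]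
            ring
          have h15 : 0 ≤ Real.log D := Real.log_nonneg hD1
          have h16 : ((2 ^ s0 * (N / 2 ^ s0) : ℕ) : ℝ) * Real.log D ≤ (2 * 2 ^ a) * (κ * (2 * Λ)) :=
            mul_le_mul h13 hlogD h15 (by positivity)
          have h17 : C7 ^ 2 * (((2 ^ s0 * (N / 2 ^ s0) : ℕ) : ℝ) * Real.log D) ≤
              (δ / 2) ^ 2 * (2 ^ a * Λ) := by
            calc C7 ^ 2 * (((2 ^ s0 * (N / 2 ^ s0) : ℕ) : ℝ) * Real.log D)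
                ≤ C7 ^ 2 * ((2 * 2 ^ a) * (κ * (2 * Λ))) := mul_le_mul_of_nonneg_left h16 (by positivity)
              _ = (16 * C7 ^ 2 * κ) * ((2 ^ a * Λ) / 4) := by ring
              _ ≤ δ ^ 2 * ((2 ^ a * Λ) / 4) := mul_le_mul_of_nonneg_right hκ2 (by positivity)
              _ = (δ / 2) ^ 2 * (2 ^ a * Λ) := by ring
          have h18 := Real.sqrt_le_sqrt h17
          rwa [Real.sqrt_mul (sq_nonneg C7), Real.sqrt_mul (sq_nonneg (δ / 2)), Real.sqrt_sq hC7.le,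
            Real.sqrt_sq (by positivity : (0 : ℝ) ≤ δ / 2)] at h18
        linarith
  have hp3 : pr (PP (2 ^ (2 * 2 ^ i))) (fun T => ∃ w ∈ Finset.Icc (2 ^ u) (2 ^ (u + 1)),
        C7 * Real.sqrt (((2 ^ s0 * w : ℕ) : ℝ) * Real.log D) < ‖SN (2 ^ s0 * w) T x‖) ≤
      3 * D ^ (-(17 / 8) : ℝ) := by
    refine (pr_exists _ _ _).trans ((Finset.sum_le_sum hp2).trans ?_)
    rw [Finset.sum_const, Nat.card_Icc, nsmul_eq_mul]
    have c1 : ((2 ^ (u + 1) + 1 - 2 ^ u : ℕ) : ℝ) ≤ 3 * D ^ (1 / 8 : ℝ) := by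
      have c2 : 2 ^ (u + 1) + 1 - 2 ^ u = 2 ^ u + 1 := by
        rw [pow_succ]; omega
      rw [c2]
      push_cast
      have c3 : 1 ≤ D ^ (1 / 8 : ℝ) := Real.one_le_rpow hD1 (by norm_num)
      linarith
    calc ((2 ^ (u + 1) + 1 - 2 ^ u : ℕ) : ℝ) * D ^ (-(9 / 4) : ℝ)
        ≤ (3 * D ^ (1 / 8 : ℝ)) * D ^ (-(9 / 4) : ℝ) := mul_le_mul_of_nonneg_right c1 (by positivity)
      _ = 3 * D ^ (-(17 / 8) : ℝ) := by
          rw [mul_assoc, ← Real.rpow_add hD0]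
          norm_num
  have := hchain.trans hp1
  linarith


end Pool.Agent.Helper51.EA
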