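import Pool.Agent.Helper5.RS.Chain
import Pool.Agent.Helper51.EA.Defs

/-!
# Project EA (MP_b6b996_nt), block T2: all `N` in a dyadic block at one point of large complexity, level `r`
-/

set_option autoImplicit false

namespace Pool.Agent.Helper51.EA

open Finset Pool.Agent.Helper5.RM Pool.Agent.Helper5.RS

private lemma LL_monoET2 {m n : ℕ} (hm : 1 ≤ m) (h : m ≤ n) : LL m ≤ LL n := by
  unfold LL
  have h1 : (0 : ℝ) < m := by exact_mod_cast hm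
  have h2 : (m : ℝ) ≤ n := by exact_mod_cast h
  have := Real.log_le_log h1 h2
  linarith

private lemma LL_oneET2 {m : ℕ} (hm : 1 ≤ m) : 1 ≤ LL m := by
  unfold LL
  have : 0 ≤ Real.log m := Real.log_nonneg (by exact_mod_cast hm)
  linarith

private lemma LL_powET2 {a : ℕ} {Λ : ℝ} (hΛ : 1 ≤ Λ) (ha : (a : ℝ) + 1 ≤ 2 * Λ) : LL (2 ^ (a + 1)) ≤ 3 * Λ := by
  unfold LL
  push_cast
  rw [Real.log_pow]
  have h1 := Real.log_two_lt_d9
  have h2 := Real.log_two_gt_d9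
  push_cast
  nlinarith

/-- powers of `m` against `2 ^ m` -/
private lemma powET2 (k W : ℕ) : ∃ m0 : ℕ, ∀ m : ℕ, m0 ≤ m → 2 ^ k * (3 * (m : ℝ)) ^ W ≤ 2 ^ m := by
  have h1 := tendsto_pow_const_div_const_pow_of_one_lt W (r := (2 : ℝ)) (by norm_num)
  have h2 : (0 : ℝ) < 1 / (2 ^ k * 3 ^ W) := by positivity
  obtain ⟨m0, h⟩ := Filter.eventually_atTop.1 (h1.eventually (gt_mem_nhds h2))
  refine ⟨m0, fun m hm => ?_⟩
  have h3 := h m hm
  rw [div_lt_div_iff₀ (by positivity) (by positivity), one_mul] at h3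
  calc 2 ^ k * (3 * (m : ℝ)) ^ W = (m : ℝ) ^ W * (2 ^ k * 3 ^ W) := by rw [mul_pow]; ring
    _ ≤ 2 ^ m := h3.le

private lemma largeET2 (N1 k W : ℕ) (c : ℝ) : ∃ i0 : ℕ, ∀ i : ℕ, i0 ≤ i →
    N1 ≤ 2 ^ (2 ^ i) ∧ 2 ^ k * (3 * (2 : ℝ) ^ i) ^ W ≤ 2 ^ (2 ^ i) ∧ c ≤ (2 : ℝ) ^ i := by
  obtain ⟨m0, hm0⟩ := powET2 k W
  have h1 : Filter.Tendsto (fun i : ℕ => (2 : ℝ) ^ i) Filter.atTop Filter.atTop :=
    tendsto_pow_atTop_atTop_of_one_lt (by norm_num)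
  obtain ⟨i1, hi1⟩ := Filter.eventually_atTop.1 (h1.eventually_ge_atTop c)
  refine ⟨max i1 (max N1 m0), fun i hi => ?_⟩
  have g1 : i1 ≤ i := (le_max_left _ _).trans hi
  have g2 : N1 ≤ i := (le_max_left _ _).trans ((le_max_right _ _).trans hi)
  have g3 : m0 ≤ i := (le_max_right _ _).trans ((le_max_right _ _).trans hi)
  have h2 : i < 2 ^ i := Nat.lt_two_pow_self
  have h3 : 2 ^ i < 2 ^ (2 ^ i) := Nat.lt_two_pow_self
  refine ⟨by omega, ?_, hi1 i g1⟩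
  have := hm0 (2 ^ i) (by omega)
  push_cast at this
  exact this

private lemma tg_monoET2 {m n : ℕ} (hm : 1 ≤ m) (h : m ≤ n) : tg m ≤ tg n := by
  unfold tg
  apply Real.sqrt_le_sqrt
  apply mul_le_mul_of_nonneg_left _ (by positivity)
  have h1 : (1 : ℝ) ≤ m := by exact_mod_cast hm
  have h2 : (m : ℝ) ≤ n := by exact_mod_cast h
  have h3 : 0 ≤ Real.log m := Real.log_nonneg h1
  have h4 : Real.log m ≤ Real.log n := Real.log_le_log (by linarith) h2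
  exact mul_le_mul h2 h4 h3 (by linarith)

/-- T2, the hypothesis is T1 (`point_sharpR`). -/
theorem far_bR_of (hps : ∀ κ δ r : ℝ, 0 < κ → 0 < δ → 0 < r → r ≤ 1 → ∃ N0 : ℕ, ∀ N : ℕ, N0 ≤ N →
      ∀ θ D : ℝ, Far N θ D → (N : ℝ) ^ κ ≤ D → D ≤ N →
      pr (PP N) (fun T => r * (1 + δ) * tg N < ‖SN N T θ‖) ≤ D ^ (-(9 / 4) : ℝ) + (N : ℝ) ^ (-(r ^ 2 * (1 + δ))))
    (κ δ r : ℝ) (hκ : 0 < κ) (hδ : 0 < δ) (hr0 : 0 < r) (hr1 : r ≤ 1) : ∃ i0 : ℕ, ∀ i : ℕ, i0 ≤ i → ∀ a : ℕ,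
    2 ^ i ≤ a → a < 2 * 2 ^ i → ∀ x D : ℝ, Far (2 ^ a) x D → ((2 : ℝ) ^ a) ^ κ ≤ D → D ≤ 2 ^ a →
    pr (PP (2 ^ (2 * 2 ^ i))) (fun T => ∃ N : ℕ, 2 ^ a ≤ N ∧ N ≤ 2 ^ (a + 1) ∧
      r * (1 + δ) * tg N < ‖SN N T x‖) ≤ 4 * D ^ (-(17 / 8) : ℝ) + ((2 : ℝ) ^ a) ^ (-(r ^ 2 * (1 + δ / 4))) := by
  obtain ⟨N1, hN1⟩ := hps (κ / 2) (δ / 2) r (by positivity) (by positivity) hr0 hr1
  obtain ⟨η', hη'⟩ : ∃ η' : ℝ, η' = min 1 (min (r ^ 2 * δ / 8) (κ / 8)) := ⟨_, rfl⟩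
  have hη0 : 0 < η' := by rw [hη']; positivity
  have hη1 : η' ≤ 1 := hη' ▸ min_le_left _ _
  have hηδ : η' ≤ r ^ 2 * δ / 8 := hη' ▸ (min_le_right _ _).trans (min_le_left _ _)
  have hηκ : η' ≤ κ / 8 := hη' ▸ (min_le_right _ _).trans (min_le_right _ _)
  obtain ⟨k, hk4, hkη⟩ : ∃ k : ℕ, 4 ≤ k ∧ 4 ≤ η' * ((k - 1 : ℕ) : ℝ) := by
    refine ⟨⌈4 / η'⌉₊ + 4, by omega, ?_⟩
    have h1 : 4 / η' ≤ (⌈4 / η'⌉₊ : ℝ) := Nat.le_ceil _
    rw [div_le_iff₀ hη0] at h1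
    have h2 : ((⌈4 / η'⌉₊ + 4 - 1 : ℕ) : ℝ) = (⌈4 / η'⌉₊ : ℝ) + 3 := by
      have : ⌈4 / η'⌉₊ + 4 - 1 = ⌈4 / η'⌉₊ + 3 := by omega
      rw [this]
      push_cast
      ring
    rw [h2]
    nlinarith
  obtain ⟨W', hW'⟩ : ∃ W' : ℕ, (2 * k - 1) ^ k ≤ W' := ⟨_, le_rfl⟩
  obtain ⟨i0, hi0⟩ := largeET2 N1 k W' (max (max 1 (8 / (r ^ 2 * δ))) (144 / (r * δ) ^ 2 * (Real.pi ^ 2 / (6 * Real.log 2))))
  refine ⟨i0, fun i hi a hai ha2 x D hFar hCD hDa => ?_⟩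
  obtain ⟨hN1i, hpow, hc⟩ := hi0 i hi
  set Λ : ℝ := (2 : ℝ) ^ i with hΛdef
  have hΛ1 : 1 ≤ Λ := ((le_max_left _ _).trans (le_max_left _ _)).trans hc
  have hΛδ : 8 / (r ^ 2 * δ) ≤ Λ := ((le_max_right _ _).trans (le_max_left _ _)).trans hc
  have hrδ : 0 < r * δ := by positivity
  have hr2 : 0 < r ^ 2 := by positivity
  have hr2δ : 0 < r ^ 2 * δ := by positivity
  have hΛπ : 144 / (r * δ) ^ 2 * (Real.pi ^ 2 / (6 * Real.log 2)) ≤ Λ := (le_max_right _ _).trans hc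
  have hΛ0 : 0 < Λ := by linarith
  have haR : (a : ℝ) + 1 ≤ 2 * Λ := by
    have : a + 1 ≤ 2 * 2 ^ i := ha2
    rw [hΛdef]
    exact_mod_cast this
  have haΛ : Λ ≤ a := by
    rw [hΛdef]
    exact_mod_cast hai
  have hL3 : LL (2 ^ (a + 1)) ≤ 3 * Λ := LL_powET2 hΛ1 haR
  have hL1 : 1 ≤ LL (2 ^ (a + 1)) := LL_oneET2 Nat.one_le_two_pow
  have hlog2 : 0 < Real.log 2 := Real.log_pos (by norm_num)
  obtain ⟨X, hX⟩ : ∃ X : ℝ, X = (2 : ℝ) ^ a := ⟨_, rfl⟩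
  have hX2 : 2 ≤ X := by
    rw [hX]
    calc (2 : ℝ) = 2 ^ 1 := by norm_num
      _ ≤ 2 ^ a := pow_le_pow_right₀ (by norm_num) (by
        have : (1 : ℝ) ≤ a := hΛ1.trans haΛ
        exact_mod_cast this)
  have hX1 : 1 ≤ X := by linarith
  have hX0 : 0 < X := by linarith
  rw [← hX] at hCD hDa
  have hD1 : 1 ≤ D := (Real.one_le_rpow hX1 hκ.le).trans hCD
  have hD0 : 0 < D := by linarith
  -- the number of values
  obtain ⟨u, hu⟩ : ∃ u : ℕ, u = ⌊η' * a⌋₊ := ⟨_, rfl⟩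
  have hu1 : (u : ℝ) ≤ η' * a := hu ▸ Nat.floor_le (by positivity)
  have hu2 : η' * a < u + 1 := hu ▸ Nat.lt_floor_add_one _
  have hua : u ≤ a := by
    have : (u : ℝ) ≤ a := hu1.trans (by
      have : (0 : ℝ) ≤ a := Nat.cast_nonneg a
      nlinarith)
    exact_mod_cast this
  have hXrp : ∀ t : ℝ, X ^ t = (2 : ℝ) ^ (t * a) := by
    intro t
    rw [hX, ← Real.rpow_natCast, ← Real.rpow_mul (by norm_num), mul_comm]
  have h2u1 : (2 : ℝ) ^ u ≤ X ^ η' := by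
    rw [hXrp, ← Real.rpow_natCast]
    exact Real.rpow_le_rpow_of_exponent_le (by norm_num) hu1
  have h2u2 : X ^ η' ≤ 2 * 2 ^ u := by
    rw [hXrp, show (2 : ℝ) * 2 ^ u = (2 : ℝ) ^ ((u : ℝ) + 1) by
      rw [Real.rpow_add (by norm_num), Real.rpow_natCast, Real.rpow_one, mul_comm]]
    exact Real.rpow_le_rpow_of_exponent_le (by norm_num) hu2.le
  set s0 : ℕ := a - u with hs0
  have hsu : s0 + u = a := by omega
  have hM : 2 ^ (a + 1) ≤ 2 ^ (2 * 2 ^ i) := Nat.pow_le_pow_right (by norm_num) ha2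
  have hchain := chain k W' a s0 (2 ^ (2 * 2 ^ i)) x hk4 hW' (by omega) hM
  have hpa : (2 : ℝ) ^ a = 2 ^ s0 * 2 ^ u := by rw [← pow_add, hsu]
  -- the first probability
  have hp1 : 2 * LL (2 ^ (a + 1)) ^ W' * ((2 : ℝ) ^ s0 / 2 ^ a) ^ (k - 1) ≤ D ^ (-(17 / 8) : ℝ) := by
    have e1 : ((2 : ℝ) ^ s0 / 2 ^ a) = ((2 : ℝ) ^ u)⁻¹ := by
      rw [hpa]
      field_simp
    have hXη : 0 < X ^ η' := Real.rpow_pos_of_pos hX0 _
    have e2 : ((2 : ℝ) ^ u)⁻¹ ≤ 2 * (X ^ η')⁻¹ := by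
      rw [inv_le_comm₀ (by positivity) (by positivity), mul_inv, inv_inv]
      linarith
    have e3 : (((2 : ℝ) ^ u)⁻¹) ^ (k - 1) ≤ 2 ^ (k - 1) * X ^ (-4 : ℝ) := by
      calc (((2 : ℝ) ^ u)⁻¹) ^ (k - 1) ≤ (2 * (X ^ η')⁻¹) ^ (k - 1) := pow_le_pow_left₀ (by positivity) e2 _
        _ = 2 ^ (k - 1) * X ^ (-(η' * ((k - 1 : ℕ) : ℝ))) := by
            rw [mul_pow, ← Real.rpow_neg hX0.le, ← Real.rpow_natCast (X ^ (-η')), ← Real.rpow_mul hX0.le]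
            congr 2
            ring
        _ ≤ 2 ^ (k - 1) * X ^ (-4 : ℝ) := by
            apply mul_le_mul_of_nonneg_left _ (by positivity)
            exact Real.rpow_le_rpow_of_exponent_le hX1 (by linarith)
    have e4 : LL (2 ^ (a + 1)) ^ W' ≤ (3 * Λ) ^ W' := pow_le_pow_left₀ (by linarith) hL3 _
    have e5 : 2 ^ k * (3 * Λ) ^ W' ≤ X := by
      refine hpow.trans ?_
      rw [hX]
      exact pow_le_pow_right₀ (by norm_num) hai
    have e6 : (2 : ℝ) ^ k = 2 * 2 ^ (k - 1) := by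
      rw [← pow_succ']
      congr 1
      omega
    rw [e1]
    calc 2 * LL (2 ^ (a + 1)) ^ W' * (((2 : ℝ) ^ u)⁻¹) ^ (k - 1)
        ≤ 2 * (3 * Λ) ^ W' * (2 ^ (k - 1) * X ^ (-4 : ℝ)) := by
          apply mul_le_mul _ e3 (by positivity) (by positivity)
          exact mul_le_mul_of_nonneg_left e4 (by norm_num)
      _ = (2 ^ k * (3 * Λ) ^ W') * X ^ (-4 : ℝ) := by rw [e6]; ring
      _ ≤ X * X ^ (-4 : ℝ) := mul_le_mul_of_nonneg_right e5 (by positivity)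
      _ = X ^ (-3 : ℝ) := by
          nth_rewrite 1 [← Real.rpow_one X]
          rw [← Real.rpow_add hX0]
          norm_num
      _ ≤ X ^ (-(17 / 8) : ℝ) := Real.rpow_le_rpow_of_exponent_le hX1 (by norm_num)
      _ ≤ D ^ (-(17 / 8) : ℝ) := Real.rpow_le_rpow_of_nonpos hD0 hDa (by norm_num)
  -- the second probability
  have hp2 : ∀ w ∈ Finset.Icc (2 ^ u) (2 ^ (u + 1)),
      pr (PP (2 ^ (2 * 2 ^ i))) (fun T => r * (1 + δ / 2) * tg (2 ^ s0 * w) <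
        ‖SN (2 ^ s0 * w) T x‖) ≤ D ^ (-(9 / 4) : ℝ) + X ^ (-(r ^ 2 * (1 + δ / 2))) := by
    intro w hw
    rw [Finset.mem_Icc] at hw
    have g1 : 2 ^ a ≤ 2 ^ s0 * w := by
      rw [← hsu, pow_add]
      exact Nat.mul_le_mul_left _ hw.1
    have g2 : 2 ^ s0 * w ≤ 2 ^ (a + 1) := by
      have : a + 1 = s0 + (u + 1) := by omega
      rw [this, pow_add]
      exact Nat.mul_le_mul_left _ hw.2
    rw [pr_SN (g2.trans hM)]
    have g3 : X ≤ ((2 ^ s0 * w : ℕ) : ℝ) := by rw [hX]; exact_mod_cast g1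
    have g4 : ((2 ^ s0 * w : ℕ) : ℝ) ≤ X * X := by
      have h1 : ((2 ^ s0 * w : ℕ) : ℝ) ≤ ((2 ^ (a + 1) : ℕ) : ℝ) := by exact_mod_cast g2
      refine h1.trans ?_
      push_cast
      rw [pow_succ, ← hX]
      nlinarith
    refine (hN1 (2 ^ s0 * w) ?_ x D ?_ ?_ (hDa.trans g3)).trans ?_
    · calc N1 ≤ 2 ^ (2 ^ i) := hN1i
        _ ≤ 2 ^ a := Nat.pow_le_pow_right (by norm_num) hai
        _ ≤ _ := g1
    · intro m hm
      refine (hFar m hm).trans ?_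
      have g4 := nd_nonneg (m * x)
      have g5 : (((2 ^ a : ℕ) : ℝ)) ≤ ((2 ^ s0 * w : ℕ) : ℝ) := by exact_mod_cast g1
      have := mul_le_mul_of_nonneg_right g5 g4
      linarith
    · calc ((2 ^ s0 * w : ℕ) : ℝ) ^ (κ / 2) ≤ (X * X) ^ (κ / 2) :=
            Real.rpow_le_rpow (by positivity) g4 (by positivity)
        _ = X ^ κ := by
            rw [Real.mul_rpow hX0.le hX0.le, ← Real.rpow_add hX0]
            congr 1
            ring
        _ ≤ D := hCD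
    · refine add_le_add le_rfl ?_
      exact Real.rpow_le_rpow_of_nonpos hX0 g3 (by nlinarith)
  -- the union
  have hmain : pr (PP (2 ^ (2 * 2 ^ i))) (fun T => ∃ N : ℕ, 2 ^ a ≤ N ∧ N ≤ 2 ^ (a + 1) ∧
      r * (1 + δ) * tg N < ‖SN N T x‖) ≤
      pr (PP (2 ^ (2 * 2 ^ i))) (fun T => ∃ N : ℕ, 2 ^ a ≤ N ∧ N ≤ 2 ^ (a + 1) ∧
        6 * Real.sqrt (2 ^ a) < ‖SN N T x - SN (2 ^ s0 * (N / 2 ^ s0)) T x‖) +
      pr (PP (2 ^ (2 * 2 ^ i))) (fun T => ∃ w ∈ Finset.Icc (2 ^ u) (2 ^ (u + 1)),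
        r * (1 + δ / 2) * tg (2 ^ s0 * w) < ‖SN (2 ^ s0 * w) T x‖) := by
    apply pr_le_add
    rintro T - ⟨N, hNa, hNb, hN⟩
    by_cases hc : 6 * Real.sqrt (2 ^ a) < ‖SN N T x - SN (2 ^ s0 * (N / 2 ^ s0)) T x‖
    · exact Or.inl ⟨N, hNa, hNb, hc⟩
    · right
      push Not at hc
      refine ⟨N / 2 ^ s0, ?_, ?_⟩
      · rw [Finset.mem_Icc]
        constructor
        · rw [Nat.le_div_iff_mul_le (by positivity), ← pow_add]
          rw [show u + s0 = a by omega]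
          exact hNa
        · have : N / 2 ^ s0 ≤ 2 ^ (a + 1) / 2 ^ s0 := Nat.div_le_div_right hNb
          rwa [Nat.pow_div (by omega) (by norm_num), show a + 1 - s0 = u + 1 by omega] at this
      · have g1 : 2 ^ a ≤ 2 ^ s0 * (N / 2 ^ s0) := by
          rw [← hsu, pow_add]
          apply Nat.mul_le_mul_left
          rw [Nat.le_div_iff_mul_le (by positivity), ← pow_add, show u + s0 = a by omega]
          exact hNa
        have g2 : 2 ^ s0 * (N / 2 ^ s0) ≤ N := Nat.mul_div_le _ _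
        have g9 : 0 < Real.sqrt ((2 : ℝ) ^ a) := Real.sqrt_pos.2 (by positivity)
        have g10 : ‖SN N T x‖ ≤ ‖SN N T x - SN (2 ^ s0 * (N / 2 ^ s0)) T x‖ +
            ‖SN (2 ^ s0 * (N / 2 ^ s0)) T x‖ := by
          have := norm_add_le (SN N T x - SN (2 ^ s0 * (N / 2 ^ s0)) T x) (SN (2 ^ s0 * (N / 2 ^ s0)) T x)
          rwa [sub_add_cancel] at this
        have g11 : tg (2 ^ s0 * (N / 2 ^ s0)) ≤ tg N := tg_monoET2 (le_trans Nat.one_le_two_pow g1) g2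
        have g12 : 6 * Real.sqrt (2 ^ a) ≤ (r * δ) / 2 * tg N := by
          have g13 : X ≤ (N : ℝ) := by rw [hX]; exact_mod_cast hNa
          have g14 : Real.log X ≤ Real.log N := Real.log_le_log hX0 g13
          have g15 : Λ * Real.log 2 ≤ Real.log X := by
            rw [hX, Real.log_pow]
            exact mul_le_mul_of_nonneg_right haΛ hlog2.le
          have g16 : 144 / (r * δ) ^ 2 ≤ 6 / Real.pi ^ 2 * Real.log N := by
            have hπ : 0 < Real.pi ^ 2 := by positivity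
            have h1 : 144 / (r * δ) ^ 2 * (Real.pi ^ 2 / (6 * Real.log 2)) * (6 / Real.pi ^ 2 * Real.log 2) = 144 / (r * δ) ^ 2 := by
              field_simp
            rw [← h1]
            calc 144 / (r * δ) ^ 2 * (Real.pi ^ 2 / (6 * Real.log 2)) * (6 / Real.pi ^ 2 * Real.log 2)
                ≤ Λ * (6 / Real.pi ^ 2 * Real.log 2) := mul_le_mul_of_nonneg_right hΛπ (by positivity)
              _ = 6 / Real.pi ^ 2 * (Λ * Real.log 2) := by ring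
              _ ≤ 6 / Real.pi ^ 2 * Real.log N := mul_le_mul_of_nonneg_left (g15.trans g14) (by positivity)
          have g17 : 144 / (r * δ) ^ 2 * 2 ^ a ≤ 6 / Real.pi ^ 2 * (N * Real.log N) := by
            have h1 : 0 ≤ Real.log N := le_trans (by positivity) (g15.trans g14)
            calc 144 / (r * δ) ^ 2 * 2 ^ a ≤ (6 / Real.pi ^ 2 * Real.log N) * N := by
                  rw [← hX]
                  exact mul_le_mul g16 g13 hX0.le (by positivity)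
              _ = 6 / Real.pi ^ 2 * (N * Real.log N) := by ring
          have g18 := Real.sqrt_le_sqrt g17
          rw [Real.sqrt_mul (by positivity)] at g18
          have g19 : Real.sqrt (144 / (r * δ) ^ 2) = 12 / (r * δ) := by
            rw [show 144 / (r * δ) ^ 2 = (12 / (r * δ)) ^ 2 by rw [div_pow]; norm_num]
            exact Real.sqrt_sq (by positivity)
          rw [g19] at g18
          have g20 : (r * δ) / 2 * (12 / (r * δ) * Real.sqrt (2 ^ a)) = 6 * Real.sqrt (2 ^ a) := by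
            field_simp
            ring
          rw [← g20]
          exact mul_le_mul_of_nonneg_left g18 (by positivity)
        have g13 : r * (1 + δ / 2) * tg (2 ^ s0 * (N / 2 ^ s0)) ≤ r * (1 + δ / 2) * tg N :=
          mul_le_mul_of_nonneg_left g11 (by positivity)
        linarith
  have hp3 : pr (PP (2 ^ (2 * 2 ^ i))) (fun T => ∃ w ∈ Finset.Icc (2 ^ u) (2 ^ (u + 1)),
        r * (1 + δ / 2) * tg (2 ^ s0 * w) < ‖SN (2 ^ s0 * w) T x‖) ≤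
      2 * D ^ (-(17 / 8) : ℝ) + X ^ (-(r ^ 2 * (1 + δ / 4))) := by
    refine (pr_exists _ _ _).trans ((Finset.sum_le_sum hp2).trans ?_)
    rw [Finset.sum_const, Nat.card_Icc, nsmul_eq_mul]
    have c1 : ((2 ^ (u + 1) + 1 - 2 ^ u : ℕ) : ℝ) ≤ 2 * X ^ η' := by
      have c2 : 2 ^ (u + 1) + 1 - 2 ^ u = 2 ^ u + 1 := by
        rw [pow_succ]; omega
      rw [c2]
      push_cast
      have c3 : 1 ≤ X ^ η' := Real.one_le_rpow hX1 hη0.le
      linarith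
    have c4 : X ^ η' ≤ D ^ (1 / 8 : ℝ) := by
      calc X ^ η' ≤ X ^ (κ / 8) := Real.rpow_le_rpow_of_exponent_le hX1 hηκ
        _ = (X ^ κ) ^ (1 / 8 : ℝ) := by
            rw [← Real.rpow_mul hX0.le]
            congr 1
            ring
        _ ≤ D ^ (1 / 8 : ℝ) := Real.rpow_le_rpow (by positivity) hCD (by norm_num)
    have c5 : X ^ η' * D ^ (-(9 / 4) : ℝ) ≤ D ^ (-(17 / 8) : ℝ) := by
      calc X ^ η' * D ^ (-(9 / 4) : ℝ) ≤ D ^ (1 / 8 : ℝ) * D ^ (-(9 / 4) : ℝ) :=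
            mul_le_mul_of_nonneg_right c4 (by positivity)
        _ = D ^ (-(17 / 8) : ℝ) := by
            rw [← Real.rpow_add hD0]
            norm_num
    have c6 : 2 ≤ X ^ (r ^ 2 * δ / 8) := by
      rw [hXrp]
      calc (2 : ℝ) = 2 ^ (1 : ℝ) := (Real.rpow_one 2).symm
        _ ≤ 2 ^ (r ^ 2 * δ / 8 * a) := by
            apply Real.rpow_le_rpow_of_exponent_le (by norm_num)
            rw [div_le_iff₀ hr2δ] at hΛδ
            nlinarith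
    have c7 : 2 * (X ^ η' * X ^ (-(r ^ 2 * (1 + δ / 2)))) ≤ X ^ (-(r ^ 2 * (1 + δ / 4))) := by
      calc 2 * (X ^ η' * X ^ (-(r ^ 2 * (1 + δ / 2)))) ≤ X ^ (r ^ 2 * δ / 8) * (X ^ (r ^ 2 * δ / 8) * X ^ (-(r ^ 2 * (1 + δ / 2)))) := by
            apply mul_le_mul c6 _ (by positivity) (by positivity)
            apply mul_le_mul_of_nonneg_right _ (by positivity)
            exact Real.rpow_le_rpow_of_exponent_le hX1 hηδ
        _ = X ^ (-(r ^ 2 * (1 + δ / 4))) := by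
            rw [← Real.rpow_add hX0, ← Real.rpow_add hX0]
            congr 1
            ring
    calc ((2 ^ (u + 1) + 1 - 2 ^ u : ℕ) : ℝ) * (D ^ (-(9 / 4) : ℝ) + X ^ (-(r ^ 2 * (1 + δ / 2))))
        ≤ (2 * X ^ η') * (D ^ (-(9 / 4) : ℝ) + X ^ (-(r ^ 2 * (1 + δ / 2)))) := mul_le_mul_of_nonneg_right c1 (by positivity)
      _ = 2 * (X ^ η' * D ^ (-(9 / 4) : ℝ)) + 2 * (X ^ η' * X ^ (-(r ^ 2 * (1 + δ / 2)))) := by ring
      _ ≤ 2 * D ^ (-(17 / 8) : ℝ) + X ^ (-(r ^ 2 * (1 + δ / 4))) := by linarith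
  have h1 := hchain.trans hp1
  have h2 : 0 ≤ D ^ (-(17 / 8) : ℝ) := by positivity
  rw [← hX] at *
  linarith

end Pool.Agent.Helper51.EA
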