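import Pool.Agent.Helper11.EA3.Defs3
import Pool.Agent.Helper5.RM.LS1

/-!
# Block EA3-V2b: the sums `Psi` for large coefficients

`comp_two1`: completion (as in `Helper5/RM/CMP.lean`, whose private lemmas are repeated here) for a family of sums with different intervals.
`psi_large_of`: `gram` at the point `g α'`, then the divisor part (`div_two33`) as hypothesis.
-/

set_option autoImplicit false

namespace Pool.Agent.Helper51.EA

open Finset Pool.Agent.Helper5.RM Pool.Agent.Helper5.RS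

private theorem C1_e_pow (x : ℝ) (h : ℕ) : e (h * x) = e x ^ h := by
  induction h with
  | zero => simp [e_zero]
  | succ n ih =>
    rw [pow_succ, ← ih, ← e_add]
    congr 1
    push_cast
    ring

private theorem C1_e_ne_one {x : ℝ} (h0 : x ≠ 0) (h1 : |x| < 1) : e x ≠ 1 := by
  intro h
  unfold e at h
  rw [Complex.exp_eq_one_iff] at h
  obtain ⟨n, hn⟩ := h
  have hpi : (2 * (Real.pi : ℂ) * Complex.I) ≠ 0 := by
    simp [Real.pi_ne_zero, Complex.I_ne_zero]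
  have h2 : (x : ℂ) = n := by
    apply mul_right_cancel₀ hpi
    rw [← hn]
    ring
  have h3 : x = n := by exact_mod_cast h2
  rw [h3] at h0 h1
  have h4 : |n| < 1 := by exact_mod_cast h1
  have h5 : n = 0 := by
    rw [abs_lt] at h4
    omega
  rw [h5] at h0
  simp at h0

private theorem C1_orth (R l y : ℕ) (hl : l < R) (hy : y < R) :
    ∑ h ∈ range R, e (h * (((l : ℝ) - y) / R)) = if l = y then (R : ℂ) else 0 := by
  have hR : (0 : ℝ) < R := by exact_mod_cast (by omega : 0 < R)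
  split_ifs with hly
  · subst hly
    have : ∀ h ∈ range R, e ((h : ℝ) * (((l : ℝ) - l) / R)) = 1 := by
      intro h _
      rw [sub_self, zero_div, mul_zero, e_zero]
    rw [Finset.sum_congr rfl this]
    simp
  · have h1 : ∀ h ∈ range R, e ((h : ℝ) * (((l : ℝ) - y) / R)) = e (((l : ℝ) - y) / R) ^ h :=
      fun h _ => C1_e_pow _ _
    rw [Finset.sum_congr rfl h1]
    have hne : e (((l : ℝ) - y) / R) ≠ 1 := by
      apply C1_e_ne_one
      · apply div_ne_zero _ hR.ne'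
        rw [sub_ne_zero]
        exact_mod_cast hly
      · rw [abs_div, abs_of_pos hR, div_lt_one hR, abs_lt]
        have h2 : (l : ℝ) < R := by exact_mod_cast hl
        have h3 : (y : ℝ) < R := by exact_mod_cast hy
        have h4 : (0 : ℝ) ≤ l := by positivity
        have h5 : (0 : ℝ) ≤ y := by positivity
        constructor <;> linarith
    rw [geom_sum_eq hne]
    have h2 : e (((l : ℝ) - y) / R) ^ R = 1 := by
      rw [← C1_e_pow, mul_div_cancel₀ _ hR.ne']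
      have := e_int ((l : ℤ) - y)
      push_cast at this
      exact this
    rw [h2, sub_self, zero_div]

private noncomputable def C1_w (R h : ℕ) : ℝ :=
  if h = 0 then 1 else 1 / (2 * h) + 1 / (2 * ((R : ℝ) - h))

private theorem C1_w_nonneg {R h : ℕ} (hh : h < R) : 0 ≤ C1_w R h := by
  unfold C1_w
  split_ifs
  · norm_num
  · have h1 : (0 : ℝ) < (R : ℝ) - h := by
      have : (h : ℝ) < R := by exact_mod_cast hh
      linarith
    positivity

private theorem C1_w_sum (H : ℕ) (hH : 1 ≤ H) (L0 : ℝ) (hL0 : 1 + Real.log H ≤ L0) :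
    ∑ h ∈ range (2 * H), C1_w (2 * H) h ≤ 3 * L0 := by
  obtain ⟨n, hn⟩ : ∃ n, 2 * H = n + 1 := ⟨2 * H - 1, by omega⟩
  have hlog : Real.log n ≤ Real.log 2 + Real.log H := by
    rw [← Real.log_mul (by norm_num) (by positivity)]
    apply Real.log_le_log
    · have : 1 ≤ n := by omega
      exact_mod_cast this
    · have : n ≤ 2 * H := by omega
      exact_mod_cast this
  have hh := harmonic_le_one_add_log n
  have hl2 : Real.log 2 < 1 := by
    have := Real.log_two_lt_d9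
    linarith
  have hlH : 0 ≤ Real.log H := Real.log_natCast_nonneg H
  have hharm : ((harmonic n : ℚ) : ℝ) = ∑ i ∈ range n, 1 / ((i : ℝ) + 1) := by
    unfold harmonic
    push_cast
    exact Finset.sum_congr rfl fun i _ => by rw [one_div]
  have hsum : ∑ h ∈ range (2 * H), C1_w (2 * H) h = 1 + ∑ i ∈ range n, 1 / ((i : ℝ) + 1) := by
    rw [hn, Finset.sum_range_succ']
    have h0 : C1_w (n + 1) 0 = 1 := by simp [C1_w]
    rw [h0, add_comm]
    congr 1
    have h1 : ∀ i ∈ range n, C1_w (n + 1) (i + 1) =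
        (1 / 2) * (1 / ((i : ℝ) + 1)) + (1 / 2) * (1 / (((n - 1 - i : ℕ) : ℝ) + 1)) := by
      intro i hi
      have hi' := Finset.mem_range.1 hi
      have e1 : (((n - 1 - i : ℕ) : ℝ) + 1) = (n : ℝ) - i := by
        have : n - 1 - i + 1 + i = n := by omega
        have h2 : (((n - 1 - i : ℕ) : ℝ) + 1 + i) = n := by exact_mod_cast this
        linarith
      have e2 : (0 : ℝ) < (n : ℝ) - i := by
        have : (i : ℝ) < n := by exact_mod_cast hi'
        linarith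
      unfold C1_w
      rw [if_neg (by omega), e1]
      push_cast
      have e3 : (n : ℝ) + 1 - (i + 1) = n - i := by ring
      rw [e3]
      field_simp
    rw [Finset.sum_congr rfl h1, Finset.sum_add_distrib, ← Finset.mul_sum, ← Finset.mul_sum,
      Finset.sum_range_reflect (fun i : ℕ => 1 / ((i : ℝ) + 1)) n]
    ring
  rw [hsum, ← hharm]
  linarith

private noncomputable def C1_c (R u v h : ℕ) : ℂ :=
  (1 / (R : ℂ)) * ∑ y ∈ (range R).filter (fun y => u ≤ y ∧ y ≤ v), e (-(h * y / R))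

private theorem C1_c_le (R u v h : ℕ) (hh : h < R) : ‖C1_c R u v h‖ ≤ C1_w R h := by
  have hR : (0 : ℝ) < R := by exact_mod_cast (by omega : 0 < R)
  unfold C1_c
  rw [norm_mul, norm_div, norm_one, Complex.norm_natCast]
  by_cases h0 : h = 0
  · subst h0
    have h1 : ‖∑ y ∈ (range R).filter (fun y => u ≤ y ∧ y ≤ v), e (-(((0 : ℕ) : ℝ) * y / R))‖ ≤ R := by
      refine (norm_sum_le _ _).trans ?_
      simp only [norm_e, Finset.sum_const, nsmul_eq_mul, mul_one]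
      have := Finset.card_filter_le (range R) (fun y => u ≤ y ∧ y ≤ v)
      rw [Finset.card_range] at this
      exact_mod_cast this
    have h2 : C1_w R 0 = 1 := by simp [C1_w]
    rw [h2, one_div, inv_mul_le_iff₀ hR, mul_one]
    exact h1
  · have hhpos : (0 : ℝ) < h := by exact_mod_cast Nat.pos_of_ne_zero h0
    have hhR : (h : ℝ) < R := by exact_mod_cast hh
    have hset : (range R).filter (fun y => u ≤ y ∧ y ≤ v) = Finset.Icc u (min v (R - 1)) := by
      ext y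
      simp only [Finset.mem_filter, Finset.mem_range, Finset.mem_Icc, le_min_iff]
      omega
    have hterm : ∀ y ∈ Finset.Icc u (min v (R - 1)), e (-((h : ℝ) * y / R)) =
        e ((y : ℝ) * (-((h : ℝ) / R))) := by
      intro y _
      congr 1
      ring
    rw [hset, Finset.sum_congr rfl hterm]
    have hM : ((min v (R - 1) : ℕ) : ℝ) + 1 - u ≤ R := by
      have h1 : min v (R - 1) + 1 ≤ R := by omega
      have h2 : ((min v (R - 1) : ℕ) : ℝ) + 1 ≤ R := by exact_mod_cast h1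
      have h3 : (0 : ℝ) ≤ u := by positivity
      linarith
    have hgeo := geo u (min v (R - 1)) R (-((h : ℝ) / R)) hR.le hM
    rw [mn_neg] at hgeo
    have hnd : min (h : ℝ) (R - h) / R ≤ nd ((h : ℝ) / R) := by
      unfold nd
      rcases le_or_gt (round ((h : ℝ) / R)) 0 with hr | hr
      · have h1 : ((round ((h : ℝ) / R) : ℤ) : ℝ) ≤ 0 := by exact_mod_cast hr
        have h2 : min (h : ℝ) (R - h) / R ≤ (h : ℝ) / R :=
          div_le_div_of_nonneg_right (min_le_left _ _) hR.le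
        exact h2.trans ((by linarith : (h : ℝ) / R ≤ (h : ℝ) / R - round ((h : ℝ) / R)).trans
          (le_abs_self _))
      · have h1 : (1 : ℝ) ≤ ((round ((h : ℝ) / R) : ℤ) : ℝ) := by exact_mod_cast hr
        have h2 : min (h : ℝ) (R - h) / R ≤ ((R : ℝ) - h) / R :=
          div_le_div_of_nonneg_right (min_le_right _ _) hR.le
        have h3 : ((R : ℝ) - h) / R = 1 - h / R := by
          field_simp
        rw [h3] at h2
        refine h2.trans ?_
        rw [abs_sub_comm]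
        exact (by linarith : 1 - (h : ℝ) / R ≤ round ((h : ℝ) / R) - (h : ℝ) / R).trans
          (le_abs_self _)
    have hmin : 0 < min (h : ℝ) (R - h) := lt_min hhpos (by linarith)
    have hmn := mn_le_of_nd (M := R) (by positivity) hnd
    have h1 : 1 / (R : ℝ) * ‖∑ y ∈ Finset.Icc u (min v (R - 1)), e ((y : ℝ) * (-((h : ℝ) / R)))‖ ≤
        1 / (R : ℝ) * (1 / (2 * (min (h : ℝ) (R - h) / R))) :=
      mul_le_mul_of_nonneg_left (hgeo.trans hmn) (by positivity)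
    refine h1.trans ?_
    have h2 : 1 / (R : ℝ) * (1 / (2 * (min (h : ℝ) (R - h) / R))) = 1 / (2 * min (h : ℝ) (R - h)) := by
      field_simp
    rw [h2]
    unfold C1_w
    rw [if_neg h0]
    have hRh : (0 : ℝ) < (R : ℝ) - h := by linarith
    rcases min_choice (h : ℝ) (R - h) with hm | hm
    · rw [hm]
      have : (0 : ℝ) ≤ 1 / (2 * ((R : ℝ) - h)) := by positivity
      linarith
    · rw [hm]
      have : (0 : ℝ) ≤ 1 / (2 * (h : ℝ)) := by positivity
      linarith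

private theorem C1_ind (R u v l : ℕ) (hl : l < R) :
    ∑ h ∈ range R, C1_c R u v h * e (h * l / R) = if u ≤ l ∧ l ≤ v then 1 else 0 := by
  have hR0 : 0 < R := by omega
  have hR : (R : ℂ) ≠ 0 := by exact_mod_cast hR0.ne'
  have h1 : ∀ h ∈ range R, C1_c R u v h * e (h * l / R) =
      ∑ y ∈ (range R).filter (fun y => u ≤ y ∧ y ≤ v), (1 / (R : ℂ)) * e (h * (((l : ℝ) - y) / R)) := by
    intro h _
    unfold C1_c
    rw [Finset.mul_sum, Finset.sum_mul]
    refine Finset.sum_congr rfl fun y _ => ?_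
    rw [mul_assoc, ← e_add]
    congr 2
    ring
  rw [Finset.sum_congr rfl h1, Finset.sum_comm]
  have h2 : ∀ y ∈ (range R).filter (fun y => u ≤ y ∧ y ≤ v),
      ∑ h ∈ range R, (1 / (R : ℂ)) * e (h * (((l : ℝ) - y) / R)) = if y = l then 1 else 0 := by
    intro y hy
    rw [← Finset.mul_sum, C1_orth R l y hl (Finset.mem_range.1 (Finset.mem_filter.1 hy).1)]
    split_ifs with ha hb hb
    · field_simp
    · exact absurd ha.symm hb
    · exact absurd hb.symm ha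
    · simp
  rw [Finset.sum_congr rfl h2, Finset.sum_ite_eq']
  congr 1
  simp only [Finset.mem_filter, Finset.mem_range, hl, true_and]

/-- completion for a family of sums -/
theorem comp_two1 (Lam : Finset ℕ) (H : ℕ) (hH : 1 ≤ H) (hLam : ∀ l ∈ Lam, H ≤ l ∧ l < 2 * H) (L0 : ℝ)
    (hL0 : 1 + Real.log H ≤ L0) (S : Finset ℕ) (u v : ℕ → ℕ) (z : ℕ → ℕ → ℂ) (Bd : ℝ)
    (hB : ∀ y : ℕ → ℂ, (∀ l, ‖y l‖ ≤ 1) → ∑ b ∈ S, ‖∑ l ∈ Lam, y l * z b l‖ ^ 2 ≤ Bd) :
    ∑ b ∈ S, ‖∑ l ∈ Lam.filter (fun l => u b ≤ l ∧ l ≤ v b), z b l‖ ^ 2 ≤ 9 * L0 ^ 2 * Bd := by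
  have hlH : 0 ≤ Real.log H := Real.log_natCast_nonneg H
  have hL : 0 ≤ L0 := by linarith
  have hw := C1_w_sum H hH L0 hL0
  have hw0 : ∀ h ∈ range (2 * H), 0 ≤ C1_w (2 * H) h := fun h hh => C1_w_nonneg (Finset.mem_range.1 hh)
  have hBd : 0 ≤ Bd := (Finset.sum_nonneg fun b _ => by positivity).trans (hB (fun _ => 0) (fun _ => by simp))
  obtain ⟨G, hG⟩ : ∃ G : ℕ → ℕ → ℂ, G = fun (h b : ℕ) => ∑ l ∈ Lam, e (h * l / ((2 * H : ℕ) : ℝ)) * z b l := ⟨_, rfl⟩
  have hGB : ∀ h, ∑ b ∈ S, ‖G h b‖ ^ 2 ≤ Bd := by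
    intro h
    rw [hG]
    exact hB (fun l => e (h * l / ((2 * H : ℕ) : ℝ))) (fun l => (norm_e _).le)
  have hone : ∀ b ∈ S, ‖∑ l ∈ Lam.filter (fun l => u b ≤ l ∧ l ≤ v b), z b l‖ ^ 2 ≤
      3 * L0 * ∑ h ∈ range (2 * H), C1_w (2 * H) h * ‖G h b‖ ^ 2 := by
    intro b _
    have h1 : ∑ l ∈ Lam.filter (fun l => u b ≤ l ∧ l ≤ v b), z b l =
        ∑ h ∈ range (2 * H), C1_c (2 * H) (u b) (v b) h * G h b := by
      rw [Finset.sum_filter, hG]
      simp_rw [Finset.mul_sum]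
      rw [Finset.sum_comm]
      refine Finset.sum_congr rfl fun l hl => ?_
      have h2 := C1_ind (2 * H) (u b) (v b) l (hLam l hl).2
      have h3 : ∀ h ∈ range (2 * H), C1_c (2 * H) (u b) (v b) h *
          (e (h * l / ((2 * H : ℕ) : ℝ)) * z b l) =
          (C1_c (2 * H) (u b) (v b) h * e (h * l / ((2 * H : ℕ) : ℝ))) * z b l :=
        fun h _ => by ring
      rw [Finset.sum_congr rfl h3, ← Finset.sum_mul, h2]
      split_ifs <;> simp
    have h2 : ‖∑ h ∈ range (2 * H), C1_c (2 * H) (u b) (v b) h * G h b‖ ≤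
        ∑ h ∈ range (2 * H), C1_w (2 * H) h * ‖G h b‖ := by
      refine (norm_sum_le _ _).trans (Finset.sum_le_sum fun h hh => ?_)
      rw [norm_mul]
      exact mul_le_mul_of_nonneg_right (C1_c_le _ _ _ _ (Finset.mem_range.1 hh)) (norm_nonneg _)
    have h3 : (∑ h ∈ range (2 * H), C1_w (2 * H) h * ‖G h b‖) ^ 2 ≤
        (∑ h ∈ range (2 * H), C1_w (2 * H) h) *
          ∑ h ∈ range (2 * H), C1_w (2 * H) h * ‖G h b‖ ^ 2 := by
      have h4 := Finset.sum_mul_sq_le_sq_mul_sq (range (2 * H))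
        (fun h => Real.sqrt (C1_w (2 * H) h)) (fun h => Real.sqrt (C1_w (2 * H) h) * ‖G h b‖)
      have e1 : ∀ h ∈ range (2 * H), Real.sqrt (C1_w (2 * H) h) *
          (Real.sqrt (C1_w (2 * H) h) * ‖G h b‖) = C1_w (2 * H) h * ‖G h b‖ := by
        intro h hh
        rw [← mul_assoc, Real.mul_self_sqrt (hw0 h hh)]
      have e2 : ∀ h ∈ range (2 * H), Real.sqrt (C1_w (2 * H) h) ^ 2 = C1_w (2 * H) h :=
        fun h hh => Real.sq_sqrt (hw0 h hh)
      have e3 : ∀ h ∈ range (2 * H), (Real.sqrt (C1_w (2 * H) h) * ‖G h b‖) ^ 2 =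
          C1_w (2 * H) h * ‖G h b‖ ^ 2 := by
        intro h hh
        rw [mul_pow, Real.sq_sqrt (hw0 h hh)]
      rw [Finset.sum_congr rfl e1, Finset.sum_congr rfl e2, Finset.sum_congr rfl e3] at h4
      exact h4
    rw [h1]
    have h5 : 0 ≤ ∑ h ∈ range (2 * H), C1_w (2 * H) h * ‖G h b‖ ^ 2 :=
      Finset.sum_nonneg fun h hh => mul_nonneg (hw0 h hh) (by positivity)
    calc ‖∑ h ∈ range (2 * H), C1_c (2 * H) (u b) (v b) h * G h b‖ ^ 2
        ≤ (∑ h ∈ range (2 * H), C1_w (2 * H) h * ‖G h b‖) ^ 2 :=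
          pow_le_pow_left₀ (norm_nonneg _) h2 2
      _ ≤ _ := h3
      _ ≤ 3 * L0 * ∑ h ∈ range (2 * H), C1_w (2 * H) h * ‖G h b‖ ^ 2 :=
          mul_le_mul_of_nonneg_right hw h5
  refine (Finset.sum_le_sum hone).trans ?_
  rw [← Finset.mul_sum, Finset.sum_comm]
  have h1 : ∑ h ∈ range (2 * H), ∑ b ∈ S, C1_w (2 * H) h * ‖G h b‖ ^ 2 ≤
      ∑ h ∈ range (2 * H), C1_w (2 * H) h * Bd := by
    refine Finset.sum_le_sum fun h hh => ?_
    rw [← Finset.mul_sum]
    exact mul_le_mul_of_nonneg_left (hGB h) (hw0 h hh)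
  rw [← Finset.sum_mul] at h1
  have h2 : (∑ h ∈ range (2 * H), C1_w (2 * H) h) * Bd ≤ 3 * L0 * Bd := mul_le_mul_of_nonneg_right hw hBd
  calc 3 * L0 * ∑ h ∈ range (2 * H), ∑ b ∈ S, C1_w (2 * H) h * ‖G h b‖ ^ 2
      ≤ 3 * L0 * (3 * L0 * Bd) := mul_le_mul_of_nonneg_left (h1.trans h2) (by positivity)
    _ = 9 * L0 ^ 2 * Bd := by ring

/-- one `g` -/
theorem large_one1 (Lam : Finset ℕ) (H : ℕ) (hH : 1 ≤ H) (hLam : ∀ l ∈ Lam, H ≤ l ∧ l < 2 * H) (L0 : ℝ)
    (hL0 : 1 + Real.log H ≤ L0) (lo hi : ℕ → ℕ) (α α' : ℝ) (g a : ℕ) :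
    ∑ b ∈ Icc 1 a, ‖c2 Lam lo hi α α' (g * a) (g * b)‖ ^ 2 ≤
      9 * L0 ^ 2 * (H * (a + 2 * ∑ j ∈ Ico 1 H, mn a (j * (g * α')))) := by
  have h := comp_two1 Lam H hH hLam L0 hL0 (Icc 1 a) (fun b => max (lo (g * a)) (lo (g * b)))
    (fun b => min (hi (g * a)) (hi (g * b))) (fun b l => e (l * (((g * a : ℕ) : ℝ) * α + ((g * b : ℕ) : ℝ) * α')))
    (H * (a + 2 * ∑ j ∈ Ico 1 H, mn a (j * (g * α')))) (by
      intro y hy
      have h2 := gram Lam H a hH hLam (fun l => y l * e (l * (((g * a : ℕ) : ℝ) * α)))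
        (fun l => by rw [norm_mul, norm_e, mul_one]; exact hy l) (g * α')
      refine le_trans (le_of_eq ?_) h2
      refine Finset.sum_congr rfl fun b _ => ?_
      congr 2
      refine Finset.sum_congr rfl fun l _ => ?_
      rw [mul_assoc, ← e_add]
      congr 2
      push_cast
      ring)
  exact h

theorem psi_large_of
    (hdiv : ∃ C : ℝ, 1 ≤ C ∧ ∀ (N : ℕ) (α' D : ℝ) (B H a : ℕ), D ≤ N → Far N α' D → 128 * LL N ≤ B → (B : ℝ) ≤ D → B ≤ H →
      B * H ≤ N → B ≤ a → a ≤ N / H →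
      ∑ g ∈ Icc 1 (N / H / a), ∑ j ∈ Ico 1 H, mn a (j * (g * α')) ≤ C * LL N ^ 3 / Real.sqrt B * (H * (N / H : ℕ))) :
    ∃ C : ℝ, 1 ≤ C ∧ ∀ (N : ℕ) (α α' D : ℝ) (B H : ℕ) (Lam : Finset ℕ) (lo hi : ℕ → ℕ),
    D ≤ N → Far N α' D → 128 * LL N ≤ B → (B : ℝ) ≤ D → B ≤ H → B * H ≤ N →
    (∀ l ∈ Lam, H ≤ l ∧ l < 2 * H) → ∀ a : ℕ, B ≤ a → a ≤ N / H →
    ∑ g ∈ Icc 1 (N / H / a), ∑ b ∈ Icc 1 a, ‖c2 Lam lo hi α α' (g * a) (g * b)‖ ^ 2 ≤
      C * LL N ^ 6 / Real.sqrt B * ((H : ℝ) ^ 2 * (N / H : ℕ)) := by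
  obtain ⟨C0, hC0, hd⟩ := hdiv
  refine ⟨9 * (1 + 2 * C0), by linarith, ?_⟩
  intro N α α' D B H Lam lo hi hDN hF hB hBD hBH hBHN hLam a hBa ha
  have hL1 : 1 ≤ LL N := by
    have h1 : (0 : ℝ) ≤ Real.log N := Real.log_natCast_nonneg N
    unfold LL
    linarith
  have hBr : (0 : ℝ) < B := by linarith
  have hB0 : 0 < B := by exact_mod_cast hBr
  have hH0 : 0 < H := hB0.trans_le hBH
  have hHr : (0 : ℝ) < H := by exact_mod_cast hH0
  have hlog : 1 + Real.log H ≤ LL N := by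
    unfold LL
    have h1 : H ≤ N := by
      calc H = 1 * H := by ring
        _ ≤ B * H := Nat.mul_le_mul_right _ hB0
        _ ≤ N := hBHN
    have h2 : Real.log H ≤ Real.log N := Real.log_le_log hHr (by exact_mod_cast h1)
    linarith
  have hdd := hd N α' D B H a hDN hF hB hBD hBH hBHN hBa ha
  have h1 : ∀ g ∈ Icc 1 (N / H / a), ∑ b ∈ Icc 1 a, ‖c2 Lam lo hi α α' (g * a) (g * b)‖ ^ 2 ≤
      9 * LL N ^ 2 * (H * (a + 2 * ∑ j ∈ Ico 1 H, mn a (j * (g * α')))) := fun g _ =>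
    large_one1 Lam H hH0 hLam (LL N) hlog lo hi α α' g a
  refine (Finset.sum_le_sum h1).trans ?_
  have e1 : ∑ g ∈ Icc 1 (N / H / a), 9 * LL N ^ 2 * (H * (a + 2 * ∑ j ∈ Ico 1 H, mn a (j * (g * α')))) =
      9 * LL N ^ 2 * (H * (((N / H / a : ℕ) : ℝ) * a + 2 * ∑ g ∈ Icc 1 (N / H / a), ∑ j ∈ Ico 1 H, mn a (j * (g * α')))) := by
    rw [← Finset.mul_sum, ← Finset.mul_sum, Finset.sum_add_distrib, ← Finset.mul_sum, Finset.sum_const, Nat.card_Icc,
      nsmul_eq_mul, Nat.add_sub_cancel]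
  rw [e1]
  have hs0 : 0 < Real.sqrt B := Real.sqrt_pos.2 hBr
  have hY : (((N / H / a : ℕ) : ℝ) * a) ≤ ((N / H : ℕ) : ℝ) := by exact_mod_cast Nat.div_mul_le_self _ _
  have hY0 : (0 : ℝ) ≤ ((N / H : ℕ) : ℝ) := Nat.cast_nonneg _
  -- the diagonal term
  have hsB : Real.sqrt B ≤ H := by
    have h2 : Real.sqrt B ≤ B := by
      rw [Real.sqrt_le_left hBr.le]
      nlinarith
    have h3 : (B : ℝ) ≤ H := by exact_mod_cast hBH
    linarith
  have hL3 : 1 ≤ LL N ^ 3 := one_le_pow₀ hL1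
  have h2 : ((N / H / a : ℕ) : ℝ) * a ≤ LL N ^ 3 / Real.sqrt B * (H * (N / H : ℕ)) := by
    have h3 : ((N / H : ℕ) : ℝ) ≤ 1 / Real.sqrt B * (H * (N / H : ℕ)) := by
      rw [one_div, inv_mul_eq_div, le_div_iff₀ hs0, mul_comm]
      exact mul_le_mul_of_nonneg_right hsB hY0
    have h4 : 1 / Real.sqrt B * (H * (N / H : ℕ)) ≤ LL N ^ 3 / Real.sqrt B * (H * (N / H : ℕ)) := by
      gcongr
    exact hY.trans (h3.trans h4)
  have hL5 : LL N ^ 5 ≤ LL N ^ 6 := pow_le_pow_right₀ hL1 (by norm_num)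
  calc 9 * LL N ^ 2 * (H * (((N / H / a : ℕ) : ℝ) * a + 2 * ∑ g ∈ Icc 1 (N / H / a), ∑ j ∈ Ico 1 H, mn a (j * (g * α'))))
      ≤ 9 * LL N ^ 2 * (H * (LL N ^ 3 / Real.sqrt B * (H * (N / H : ℕ)) +
        2 * (C0 * LL N ^ 3 / Real.sqrt B * (H * (N / H : ℕ))))) := by gcongr
    _ = 9 * (1 + 2 * C0) * LL N ^ 5 / Real.sqrt B * ((H : ℝ) ^ 2 * (N / H : ℕ)) := by ring
    _ ≤ 9 * (1 + 2 * C0) * LL N ^ 6 / Real.sqrt B * ((H : ℝ) ^ 2 * (N / H : ℕ)) := by
        have : 0 ≤ 1 + 2 * C0 := by linarith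
        gcongr

end Pool.Agent.Helper51.EA
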